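import Mathlib

set_option autoImplicit false

/-! The binomial distribution: point masses, tails, and a good threshold. -/

open Finset

namespace Pool.Agent.Helper32.AAG

/-- the probability that a binomial variable with N trials of success rate p equals k -/
noncomputable def b (N : ℕ) (p : ℝ) (k : ℕ) : ℝ := (N.choose k : ℝ) * p ^ k * (1 - p) ^ (N - k)

/-- the probability that it is at least k -/
noncomputable def T (N : ℕ) (p : ℝ) (k : ℕ) : ℝ := ∑ j ∈ Ico k (N + 1), b N p j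

theorem b_nonneg (N : ℕ) {p : ℝ} (h0 : 0 ≤ p) (h1 : p ≤ 1) (k : ℕ) : 0 ≤ b N p k := by
  have h2 : 0 ≤ 1 - p := by linarith
  unfold b
  positivity

theorem T_nonneg (N : ℕ) {p : ℝ} (h0 : 0 ≤ p) (h1 : p ≤ 1) (k : ℕ) : 0 ≤ T N p k :=
  Finset.sum_nonneg (fun j _ => b_nonneg N h0 h1 j)

theorem T_anti (N : ℕ) {p : ℝ} (h0 : 0 ≤ p) (h1 : p ≤ 1) {s t : ℕ} (h : s ≤ t) :
    T N p t ≤ T N p s := by
  unfold T
  apply Finset.sum_le_sum_of_subset_of_nonneg
  · exact Finset.Ico_subset_Ico_left h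
  · intro j _ _
    exact b_nonneg N h0 h1 j

theorem T_zero (N : ℕ) (p : ℝ) : T N p 0 = 1 := by
  have h := add_pow p (1 - p) N
  rw [add_sub_cancel, one_pow] at h
  rw [h, T, ← Finset.range_eq_Ico]
  refine Finset.sum_congr rfl (fun j _ => ?_)
  unfold b
  ring

theorem T_succ (N : ℕ) (p : ℝ) (s : ℕ) : T N p s = b N p s + T N p (s + 1) := by
  by_cases h : s < N + 1
  · unfold T
    rw [Finset.sum_eq_sum_Ico_succ_bot h]
  · unfold T
    rw [Finset.Ico_eq_empty (by omega), Finset.Ico_eq_empty (by omega)]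
    have : N.choose s = 0 := Nat.choose_eq_zero_of_lt (by omega)
    simp [b, this]

theorem T_top (N : ℕ) (p : ℝ) : T N p (N + 1) = 0 := by
  unfold T
  simp

/-- exponential bound -/
theorem T_exp (N s : ℕ) (p θ : ℝ) (h0 : 0 ≤ p) (h1 : p ≤ 1) (hθ : 0 ≤ θ) (hθ1 : θ ≤ 1) :
    T N p s ≤ Real.exp (θ ^ 2 * (N * p * (1 - p)) - θ * (s - N * p)) := by
  have h2 : T N p s * Real.exp (θ * s) ≤ (p * Real.exp θ + (1 - p)) ^ N := by
    rw [add_pow, T, Finset.sum_mul]
    calc ∑ j ∈ Ico s (N + 1), b N p j * Real.exp (θ * s) ≤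
        ∑ j ∈ Ico s (N + 1), (p * Real.exp θ) ^ j * (1 - p) ^ (N - j) * (N.choose j : ℝ) := by
          refine Finset.sum_le_sum (fun j hj => ?_)
          rw [mem_Ico] at hj
          have e1 : (s : ℝ) ≤ j := by exact_mod_cast hj.1
          have e2 : θ * s ≤ j * θ := by nlinarith
          have e3 : (p * Real.exp θ) ^ j * (1 - p) ^ (N - j) * (N.choose j : ℝ) =
              b N p j * Real.exp (j * θ) := by
            rw [mul_pow, ← Real.exp_nat_mul, b]
            ring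
          rw [e3]
          have e4 := b_nonneg N h0 h1 j
          gcongr
      _ ≤ ∑ j ∈ range (N + 1), (p * Real.exp θ) ^ j * (1 - p) ^ (N - j) * (N.choose j : ℝ) := by
          apply Finset.sum_le_sum_of_subset_of_nonneg
          · rw [Finset.range_eq_Ico]
            exact Finset.Ico_subset_Ico_left (Nat.zero_le s)
          · intro j _ _
            have : 0 ≤ 1 - p := by linarith
            positivity
  have key : ∀ u : ℝ, |u| ≤ 1 → Real.exp u ≤ 1 + u + u ^ 2 := by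
    intro u hu
    have := Real.abs_exp_sub_one_sub_id_le hu
    have h3 := (abs_le.1 this).2
    linarith
  have h3 : (p * Real.exp θ + (1 - p)) * Real.exp (-(θ * p)) ≤ Real.exp (θ ^ 2 * (p * (1 - p))) := by
    have e1 : (p * Real.exp θ + (1 - p)) * Real.exp (-(θ * p)) =
        p * Real.exp (θ * (1 - p)) + (1 - p) * Real.exp (-(θ * p)) := by
      have : Real.exp (θ * (1 - p)) = Real.exp θ * Real.exp (-(θ * p)) := by
        rw [← Real.exp_add]
        ring_nf
      rw [this]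
      ring
    rw [e1]
    have hp1 : 0 ≤ 1 - p := by linarith
    have e2 := key (θ * (1 - p)) (by
      rw [abs_of_nonneg (by positivity)]
      nlinarith)
    have e3 := key (-(θ * p)) (by
      rw [abs_neg, abs_of_nonneg (by positivity)]
      nlinarith)
    calc p * Real.exp (θ * (1 - p)) + (1 - p) * Real.exp (-(θ * p)) ≤
        p * (1 + θ * (1 - p) + (θ * (1 - p)) ^ 2) + (1 - p) * (1 + -(θ * p) + (-(θ * p)) ^ 2) := by
          gcongr
      _ = θ ^ 2 * (p * (1 - p)) + 1 := by ring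
      _ ≤ Real.exp (θ ^ 2 * (p * (1 - p))) := Real.add_one_le_exp _
  have h4 : (p * Real.exp θ + (1 - p)) ^ N * Real.exp (-(θ * (N * p))) ≤
      Real.exp (θ ^ 2 * (N * p * (1 - p))) := by
    have hp1 : 0 ≤ 1 - p := by linarith
    have e1 : Real.exp (-(θ * (N * p))) = Real.exp (-(θ * p)) ^ N := by
      rw [← Real.exp_nat_mul]
      ring_nf
    have e2 : Real.exp (θ ^ 2 * (N * p * (1 - p))) = Real.exp (θ ^ 2 * (p * (1 - p))) ^ N := by
      rw [← Real.exp_nat_mul]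
      ring_nf
    rw [e1, e2, ← mul_pow]
    exact pow_le_pow_left₀ (by positivity) h3 N
  have h5 : T N p s = T N p s * Real.exp (θ * s) * Real.exp (-(θ * s)) := by
    rw [mul_assoc, ← Real.exp_add]
    simp
  rw [h5]
  calc T N p s * Real.exp (θ * s) * Real.exp (-(θ * s)) ≤
      (p * Real.exp θ + (1 - p)) ^ N * Real.exp (-(θ * s)) :=
        mul_le_mul_of_nonneg_right h2 (Real.exp_pos _).le
    _ = (p * Real.exp θ + (1 - p)) ^ N * Real.exp (-(θ * (N * p))) *
        Real.exp (-(θ * (s - N * p))) := by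
        rw [mul_assoc, ← Real.exp_add]
        congr 2
        ring
    _ ≤ Real.exp (θ ^ 2 * (N * p * (1 - p))) * Real.exp (-(θ * (s - N * p))) :=
        mul_le_mul_of_nonneg_right h4 (Real.exp_pos _).le
    _ = Real.exp (θ ^ 2 * (N * p * (1 - p)) - θ * (s - N * p)) := by
        rw [← Real.exp_add]
        congr 1

/-- consecutive point masses -/
theorem b_step (N : ℕ) (p : ℝ) (h0 : 0 < p) (h1 : p < 1) (δ : ℝ) (hδ : 0 ≤ δ) (k : ℕ) (hk : k < N)
    (h : (k : ℝ) + 1 - N * p ≤ δ * (N * p * (1 - p))) :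
    (1 - δ) * b N p k ≤ b N p (k + 1) := by
  have hp1 : 0 < 1 - p := by linarith
  have h3 : b N p (k + 1) * (((k : ℝ) + 1) * (1 - p)) = b N p k * ((N - k) * p) := by
    have e1 : (N.choose (k + 1) : ℝ) * (k + 1) = (N.choose k : ℝ) * (N - k) := by
      have := Nat.choose_succ_right_eq N k
      have h4 : ((N - k : ℕ) : ℝ) = (N : ℝ) - k := by rw [Nat.cast_sub hk.le]
      rw [← h4]
      exact_mod_cast this
    have e2 : (1 - p) ^ (N - k) = (1 - p) ^ (N - (k + 1)) * (1 - p) := by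
      rw [← pow_succ]
      congr 1
      omega
    unfold b
    rw [e2]
    calc (N.choose (k + 1) : ℝ) * p ^ (k + 1) * (1 - p) ^ (N - (k + 1)) * (((k : ℝ) + 1) * (1 - p))
        = (N.choose (k + 1) : ℝ) * (k + 1) * (p ^ (k + 1) * (1 - p) ^ (N - (k + 1)) * (1 - p)) := by
          ring
      _ = (N.choose k : ℝ) * (N - k) * (p ^ (k + 1) * (1 - p) ^ (N - (k + 1)) * (1 - p)) := by
          rw [e1]
      _ = (N.choose k : ℝ) * p ^ k * ((1 - p) ^ (N - (k + 1)) * (1 - p)) * ((N - k) * p) := by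
          rw [pow_succ]
          ring
  have h4 : (1 - δ) * (((k : ℝ) + 1) * (1 - p)) ≤ (N - k) * p := by
    have hk0 : (0 : ℝ) ≤ (k : ℝ) := Nat.cast_nonneg _
    by_cases hy : 0 ≤ (k : ℝ) + 1 - N * p
    · have e1 : 0 ≤ δ * (((k : ℝ) + 1 - N * p) * (1 - p)) := by positivity
      nlinarith
    · push Not at hy
      have e1 : 0 ≤ δ * (((k : ℝ) + 1) * (1 - p)) := by positivity
      nlinarith
  have hj1 : (0 : ℝ) < ((k : ℝ) + 1) * (1 - p) := by positivity
  have hb := b_nonneg N h0.le h1.le k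
  have h6 : (1 - δ) * b N p k * (((k : ℝ) + 1) * (1 - p)) ≤
      b N p (k + 1) * (((k : ℝ) + 1) * (1 - p)) := by
    rw [h3]
    calc (1 - δ) * b N p k * (((k : ℝ) + 1) * (1 - p)) =
        b N p k * ((1 - δ) * (((k : ℝ) + 1) * (1 - p))) := by ring
      _ ≤ b N p k * ((N - k) * p) := mul_le_mul_of_nonneg_left h4 hb
  exact le_of_mul_le_mul_right h6 hj1

theorem SJ_le (N J S : ℕ) (p : ℝ) (h0 : 0 < p) (h1 : p < 1) (hJ : 1 ≤ J)
    (h : (J : ℝ) * (S + J - N * p) ≤ N * p * (1 - p) / 2) : S + J ≤ N := by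
  have hJ' : (1 : ℝ) ≤ J := by exact_mod_cast hJ
  have hN : (0 : ℝ) ≤ N := Nat.cast_nonneg _
  have hp1 : 0 < 1 - p := by linarith
  have h2 : (S : ℝ) + J - N * p ≤ N * p * (1 - p) / 2 := by
    by_cases hy : 0 ≤ (S : ℝ) + J - N * p
    · nlinarith
    · push Not at hy
      have : 0 ≤ N * p * (1 - p) / 2 := by positivity
      linarith
  have h3 : (S : ℝ) + J ≤ N := by
    have e1 : 0 ≤ (N : ℝ) * ((1 - p) * (2 - p)) := by
      have : 0 ≤ 2 - p := by linarith
      positivity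
    nlinarith
  exact_mod_cast h3

theorem b_steps (N J S : ℕ) (p : ℝ) (h0 : 0 < p) (h1 : p < 1) (hJ : 1 ≤ J)
    (h : (J : ℝ) * (S + J - N * p) ≤ N * p * (1 - p) / 2) (s : ℕ)
    (hs : s ≤ S) : ∀ i : ℕ, i ≤ J →
    (1 - 1 / (2 * (J : ℝ))) ^ i * b N p s ≤ b N p (s + i) := by
  have hSJ := SJ_le N J S p h0 h1 hJ h
  intro i
  induction i with
  | zero => intro _; simp
  | succ i ih =>
    intro hi
    have hJ' : (1 : ℝ) ≤ J := by exact_mod_cast hJ
    have h1' := ih (by omega)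
    have h2 := b_step N p h0 h1 (1 / (2 * (J : ℝ))) (by positivity) (s + i) (by omega) (by
      have e1 : ((s + i : ℕ) : ℝ) + 1 ≤ S + J := by
        have : s + i + 1 ≤ S + J := by omega
        exact_mod_cast this
      have e2 : (S : ℝ) + J - N * p ≤ 1 / (2 * (J : ℝ)) * (N * p * (1 - p)) := by
        rw [div_mul_eq_mul_div, one_mul, le_div_iff₀ (by positivity)]
        linarith
      linarith)
    have h3 : 0 ≤ 1 - 1 / (2 * (J : ℝ)) := by
      rw [sub_nonneg, div_le_one (by positivity)]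
      linarith
    rw [pow_succ']
    calc (1 - 1 / (2 * (J : ℝ))) * (1 - 1 / (2 * (J : ℝ))) ^ i * b N p s =
        (1 - 1 / (2 * (J : ℝ))) * ((1 - 1 / (2 * (J : ℝ))) ^ i * b N p s) := by ring
      _ ≤ (1 - 1 / (2 * (J : ℝ))) * b N p (s + i) := by gcongr
      _ ≤ b N p (s + (i + 1)) := h2

/-- one point mass is a small part of the tail -/
theorem hazard (N J S : ℕ) (p : ℝ) (h0 : 0 < p) (h1 : p < 1) (hJ : 1 ≤ J)
    (h : (J : ℝ) * (S + J - N * p) ≤ N * p * (1 - p) / 2) (s : ℕ)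
    (hs : s ≤ S) : (J : ℝ) * b N p s ≤ 2 * T N p s := by
  have hSN := SJ_le N J S p h0 h1 hJ h
  have hJ' : (1 : ℝ) ≤ J := by exact_mod_cast hJ
  have h1' : ∑ i ∈ range J, b N p (s + i) ≤ T N p s := by
    unfold T
    rw [Finset.sum_Ico_eq_sum_range]
    apply Finset.sum_le_sum_of_subset_of_nonneg
    · intro i hi
      rw [mem_range] at hi ⊢
      omega
    · intro i _ _
      exact b_nonneg N h0.le h1.le _
  have h2 : ∀ i ∈ range J, 1 / 2 * b N p s ≤ b N p (s + i) := by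
    intro i hi
    rw [mem_range] at hi
    refine le_trans ?_ (b_steps N J S p h0 h1 hJ h s hs i hi.le)
    have hb := b_nonneg N h0.le h1.le s
    gcongr
    have h3 : (-2 : ℝ) ≤ -(1 / (2 * (J : ℝ))) := by
      have : 1 / (2 * (J : ℝ)) ≤ 1 := by
        rw [div_le_one (by positivity)]
        linarith
      linarith
    have h4 := one_add_mul_le_pow h3 i
    have h5 : (i : ℝ) ≤ J := by exact_mod_cast hi.le
    have h6 : (i : ℝ) * (1 / (2 * (J : ℝ))) ≤ 1 / 2 := by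
      rw [mul_one_div, div_le_iff₀ (by positivity)]
      linarith
    calc (1 : ℝ) / 2 ≤ 1 + i * -(1 / (2 * (J : ℝ))) := by linarith
      _ ≤ (1 + -(1 / (2 * (J : ℝ)))) ^ i := h4
      _ = (1 - 1 / (2 * (J : ℝ))) ^ i := by rw [← sub_eq_add_neg]
  have h3 : ∑ i ∈ range J, 1 / 2 * b N p s ≤ ∑ i ∈ range J, b N p (s + i) :=
    Finset.sum_le_sum h2
  rw [Finset.sum_const, card_range, nsmul_eq_mul] at h3
  linarith

/-- the tail changes slowly: one step -/
theorem T_pow (N J S : ℕ) (p : ℝ) (h0 : 0 < p) (h1 : p < 1) (hJ : 2 ≤ J)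
    (h : (J : ℝ) * (S + J - N * p) ≤ N * p * (1 - p) / 2) (s : ℕ)
    (hs : s ≤ S + 1) (y : ℕ) : (1 - 2 / (J : ℝ)) ^ y * T N p (s - y) ≤ T N p s := by
  have hJ2 : (2 : ℝ) ≤ J := by exact_mod_cast hJ
  have h2 : 0 ≤ 1 - 2 / (J : ℝ) := by
    rw [sub_nonneg, div_le_one (by positivity)]
    exact hJ2
  induction y with
  | zero => simp
  | succ y ih =>
    by_cases hy : s ≤ y
    · have e1 : s - (y + 1) = s - y := by omega
      have hT := T_nonneg N h0.le h1.le (s - y)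
      rw [e1, pow_succ']
      calc (1 - 2 / (J : ℝ)) * (1 - 2 / (J : ℝ)) ^ y * T N p (s - y) ≤
          1 * (1 - 2 / (J : ℝ)) ^ y * T N p (s - y) := by
            gcongr
            have : 0 ≤ 2 / (J : ℝ) := by positivity
            linarith
        _ ≤ T N p s := by rw [one_mul]; exact ih
    · have e1 : s - y = (s - (y + 1)) + 1 := by omega
      have e2 : T N p (s - (y + 1)) = b N p (s - (y + 1)) + T N p (s - y) := by
        rw [e1]
        exact T_succ N p (s - (y + 1))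
      have e3 := hazard N J S p h0 h1 (by omega) h (s - (y + 1)) (by omega)
      have e4 : (1 - 2 / (J : ℝ)) * T N p (s - (y + 1)) ≤ T N p (s - y) := by
        have e5 : b N p (s - (y + 1)) ≤ 2 / (J : ℝ) * T N p (s - (y + 1)) := by
          rw [div_mul_eq_mul_div, le_div_iff₀ (by positivity)]
          linarith
        linarith
      rw [pow_succ]
      calc (1 - 2 / (J : ℝ)) ^ y * (1 - 2 / (J : ℝ)) * T N p (s - (y + 1)) =
          (1 - 2 / (J : ℝ)) ^ y * ((1 - 2 / (J : ℝ)) * T N p (s - (y + 1))) := by ring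
        _ ≤ (1 - 2 / (J : ℝ)) ^ y * T N p (s - y) := by gcongr
        _ ≤ T N p s := ih

/-- the tail changes slowly -/
theorem T_ratio (N J S : ℕ) (p : ℝ) (h0 : 0 < p) (h1 : p < 1)
    (h : (J : ℝ) * (S + J - N * p) ≤ N * p * (1 - p) / 2) (s x : ℕ)
    (hs : s ≤ S + 1) (hx0 : 1 ≤ x) (hx : 4 * x ≤ J) : T N p (s - x) ≤ 2 * T N p s := by
  have hJ4 : (4 : ℝ) ≤ J := by
    have : 4 ≤ J := by omega
    exact_mod_cast this
  have h2 := T_pow N J S p h0 h1 (by omega) h s hs x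
  have hxr : 4 * (x : ℝ) ≤ J := by exact_mod_cast hx
  have h3 : (-2 : ℝ) ≤ -(2 / (J : ℝ)) := by
    have : 2 / (J : ℝ) ≤ 2 := by
      rw [div_le_iff₀ (by positivity)]
      linarith
    linarith
  have h4 := one_add_mul_le_pow h3 x
  have h6 : (x : ℝ) * (2 / (J : ℝ)) ≤ 1 / 2 := by
    rw [← mul_div_assoc, div_le_iff₀ (by positivity)]
    linarith
  have h7 : (1 : ℝ) / 2 ≤ (1 - 2 / (J : ℝ)) ^ x := by
    calc (1 : ℝ) / 2 ≤ 1 + x * -(2 / (J : ℝ)) := by linarith
      _ ≤ (1 + -(2 / (J : ℝ))) ^ x := h4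
      _ = (1 - 2 / (J : ℝ)) ^ x := by rw [← sub_eq_add_neg]
  have h8 := T_nonneg N h0.le h1.le (s - x)
  nlinarith

/-- size-biasing: the mass with one trial fewer -/
theorem b_pred (N : ℕ) (p : ℝ) (t : ℕ) (ht : 1 ≤ t) (htN : t ≤ N) :
    b (N - 1) p (t - 1) * (N * p) = t * b N p t := by
  obtain ⟨s, rfl⟩ : ∃ s, t = s + 1 := ⟨t - 1, by omega⟩
  obtain ⟨M, rfl⟩ : ∃ M, N = M + 1 := ⟨N - 1, by omega⟩
  have h := Nat.add_one_mul_choose_eq M s
  have h' : ((M : ℝ) + 1) * (M.choose s : ℝ) = ((M + 1).choose (s + 1) : ℝ) * (s + 1) := by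
    exact_mod_cast h
  simp only [Nat.add_sub_cancel]
  have e1 : M + 1 - (s + 1) = M - s := by omega
  unfold b
  rw [e1, pow_succ]
  push_cast
  linear_combination (p ^ s * (1 - p) ^ (M - s) * p) * h'

/-- the threshold, with explicit conditions -/
theorem thr (n J x : ℕ) (p K w : ℝ) (h0 : 0 < p) (h1 : p < 1) (hn : 2 ≤ n)
    (hK : 1 ≤ K) (hKn : 2 * K ≤ n) (hw : 0 ≤ w)
    (hw2 : w ^ 2 = ((n - 1 : ℕ) : ℝ) * p * (1 - p) * Real.log n)
    (hL : Real.log n ≤ ((n - 1 : ℕ) : ℝ) * p * (1 - p)) (hJ : 1 ≤ J)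
    (hc : (J : ℝ) * (3 * w + 1 + J) ≤ ((n - 1 : ℕ) : ℝ) * p * (1 - p) / 2)
    (hx : 4 * (x + 1) ≤ J) :
    ∃ t : ℕ, 1 ≤ t ∧ t ≤ n - 1 ∧ K ≤ n * T (n - 1) p t ∧ n * T (n - 1) p (t - x) ≤ 2 * K ∧
      b (n - 2) p (t - 1) ≤ 4 / J * T (n - 1) p t ∧
      (J : ℝ) * (Real.log n - Real.log K) ≤ 4 * (t + 1) := by
  obtain ⟨N, hN⟩ : ∃ N, N = n - 1 := ⟨_, rfl⟩
  rw [← hN] at hw2 hL hc ⊢
  have hN2 : n - 2 = N - 1 := by omega
  rw [hN2]
  have hJ' : (1 : ℝ) ≤ J := by exact_mod_cast hJ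
  have hnr : (2 : ℝ) ≤ n := by exact_mod_cast hn
  have hn0 : (0 : ℝ) < n := by linarith
  have hLpos : 0 < Real.log n := Real.log_pos (by linarith)
  have hv : 0 < (N : ℝ) * p * (1 - p) := lt_of_lt_of_le hLpos hL
  have hNp : 0 ≤ (N : ℝ) * p := by positivity
  obtain ⟨S, hS⟩ : ∃ S, S = ⌈(N : ℝ) * p + 3 * w⌉₊ := ⟨_, rfl⟩
  have hS1 : (N : ℝ) * p + 3 * w ≤ S := by rw [hS]; exact Nat.le_ceil _
  have hS2 : (S : ℝ) < N * p + 3 * w + 1 := by rw [hS]; exact Nat.ceil_lt_add_one (by positivity)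
  have hcond : (J : ℝ) * (S + J - N * p) ≤ N * p * (1 - p) / 2 := by
    refine le_trans ?_ hc
    gcongr
    linarith
  have hSN := SJ_le N J S p h0 h1 hJ hcond
  -- the tail at S
  have hTS : n * T N p S < K := by
    have e0 : 0 ≤ Real.sqrt (Real.log n / (N * p * (1 - p))) := Real.sqrt_nonneg _
    have e1 : Real.sqrt (Real.log n / (N * p * (1 - p))) ^ 2 =
        Real.log n / (N * p * (1 - p)) := Real.sq_sqrt (by positivity)
    obtain ⟨θ, hθ⟩ : ∃ θ, θ = Real.sqrt (Real.log n / (N * p * (1 - p))) := ⟨_, rfl⟩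
    rw [← hθ] at e0 e1
    have e2 : θ ≤ 1 := by
      have : θ ^ 2 ≤ 1 := by
        rw [e1, div_le_one hv]
        exact hL
      nlinarith
    have e3 : θ ^ 2 * (N * p * (1 - p)) = Real.log n := by
      rw [e1]
      exact div_mul_cancel₀ _ hv.ne'
    have e4 : θ * w = Real.log n := by
      have e5 : (θ * w) ^ 2 = Real.log n ^ 2 := by
        rw [mul_pow, hw2, ← mul_assoc, e3]
        ring
      have e6 : 0 ≤ θ * w := by positivity
      nlinarith
    have e5 := T_exp N S p θ h0.le h1.le e0 e2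
    have e6 : θ ^ 2 * (N * p * (1 - p)) - θ * (S - N * p) ≤ -(2 * Real.log n) := by
      have : θ * (3 * w) ≤ θ * (S - N * p) := by
        gcongr
        linarith
      linarith
    have e7 : T N p S ≤ Real.exp (-(2 * Real.log n)) := e5.trans (Real.exp_le_exp.2 e6)
    have e8 : Real.exp (-(2 * Real.log n)) = (1 / n) * (1 / n) := by
      rw [two_mul, neg_add, Real.exp_add, Real.exp_neg, Real.exp_log hn0]
      ring
    rw [e8] at e7
    have e9 : n * T N p S ≤ 1 / n := by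
      calc n * T N p S ≤ n * ((1 / n) * (1 / n)) := by gcongr
        _ = 1 / n := by field_simp
    have e10 : (1 : ℝ) / n < 1 := by
      rw [div_lt_one hn0]
      linarith
    linarith
  -- the threshold
  have hex : ∃ m : ℕ, n * T N p m < K := ⟨S, hTS⟩
  classical
  obtain ⟨m, hm⟩ : ∃ m, m = Nat.find hex := ⟨_, rfl⟩
  have hm1 : n * T N p m < K := by rw [hm]; exact Nat.find_spec hex
  have hmS : m ≤ S := by rw [hm]; exact Nat.find_min' hex hTS
  have hmin : ∀ k < m, K ≤ n * T N p k := by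
    intro k hk
    rw [hm] at hk
    exact not_lt.1 (Nat.find_min hex hk)
  have hm2 : 2 ≤ m := by
    by_contra hcon
    push Not at hcon
    have e1 : T N p 1 ≤ T N p m := T_anti N h0.le h1.le (by omega)
    have e2 := hazard N J S p h0 h1 hJ hcond 0 (by omega)
    have e3 := T_succ N p 0
    rw [T_zero] at e2 e3
    rw [zero_add] at e3
    have hJ4 : (4 : ℝ) ≤ J := by
      have : 4 ≤ J := by omega
      exact_mod_cast this
    have e4 : b N p 0 ≤ 1 / 2 := by
      have := b_nonneg N h0.le h1.le 0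
      nlinarith
    have e5 : 1 / 2 ≤ T N p m := by linarith
    have e6 : n * (1 / 2 : ℝ) ≤ n * T N p m := by gcongr
    linarith
  refine ⟨m - 1, by omega, by omega, hmin _ (by omega), ?_, ?_, ?_⟩
  · have e1 := T_ratio N J S p h0 h1 hcond m (x + 1) (by omega) (by omega) hx
    have e2 : m - 1 - x = m - (x + 1) := by omega
    rw [e2]
    calc (n : ℝ) * T N p (m - (x + 1)) ≤ n * (2 * T N p m) := by gcongr
      _ = 2 * (n * T N p m) := by ring
      _ ≤ 2 * K := by linarith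
  · have e1 := hazard N J S p h0 h1 hJ hcond (m - 1) (by omega)
    have e2 := b_pred N p (m - 1) (by omega) (by omega)
    have e3 : ((m - 1 : ℕ) : ℝ) ≤ 2 * (N * p) := by
      have e4 : ((m - 1 : ℕ) : ℝ) ≤ S := by
        have : m - 1 ≤ S := by omega
        exact_mod_cast this
      have e5 : 3 * w + 1 ≤ N * p := by
        have e6 : (J : ℝ) * (3 * w + 1 + J) ≥ 1 * (3 * w + 1) := by
          have : (3 * w + 1 + (J : ℝ)) ≥ 3 * w + 1 := by linarith
          nlinarith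
        have e7 : (N : ℝ) * p * (1 - p) / 2 ≤ N * p := by nlinarith
        linarith
      linarith
    have hb := b_nonneg N h0.le h1.le (m - 1)
    have hNp' : 0 < (N : ℝ) * p := by
      by_contra hcon
      push Not at hcon
      have : (N : ℝ) * p = 0 := le_antisymm hcon hNp
      rw [this] at hv
      simp at hv
    have e4 : b (N - 1) p (m - 1 - 1) * (N * p) ≤ 2 * b N p (m - 1) * (N * p) := by
      rw [e2]
      nlinarith
    have e5 : b (N - 1) p (m - 1 - 1) ≤ 2 * b N p (m - 1) := le_of_mul_le_mul_right e4 hNp'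
    rw [div_mul_eq_mul_div, le_div_iff₀ (by positivity)]
    nlinarith
  · have hJ4 : (4 : ℝ) ≤ J := by
      have : 4 ≤ J := by omega
      exact_mod_cast this
    have e1 := T_pow N J S p h0 h1 (by omega) hcond m (by omega) m
    rw [Nat.sub_self, T_zero, mul_one] at e1
    have e2 : Real.exp (-(4 / J)) ≤ 1 - 2 / (J : ℝ) := by
      have e3 := Real.one_sub_inv_le_log_of_pos (x := 1 - 2 / (J : ℝ)) (by
        rw [sub_pos, div_lt_one (by positivity)]
        linarith)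
      have e4 : -(4 / (J : ℝ)) ≤ 1 - (1 - 2 / (J : ℝ))⁻¹ := by
        have e5 : (1 - 2 / (J : ℝ))⁻¹ = J / (J - 2) := by
          have : (J : ℝ) - 2 ≠ 0 := by
            have : (0 : ℝ) < J - 2 := by linarith
            exact this.ne'
          field_simp
        rw [e5]
        have e6 : (0 : ℝ) < J - 2 := by linarith
        have e7 : (1 : ℝ) - J / (J - 2) = -(2 / (J - 2)) := by
          field_simp
          ring
        rw [e7, neg_le_neg_iff, div_le_div_iff₀ e6 (by positivity)]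
        linarith
      calc Real.exp (-(4 / J)) ≤ Real.exp (Real.log (1 - 2 / (J : ℝ))) :=
            Real.exp_le_exp.2 (e4.trans e3)
        _ = 1 - 2 / (J : ℝ) := Real.exp_log (by
            rw [sub_pos, div_lt_one (by positivity)]
            linarith)
    have e3 : Real.exp (-(4 / J)) ^ m ≤ T N p m :=
      (pow_le_pow_left₀ (Real.exp_pos _).le e2 m).trans e1
    rw [← Real.exp_nat_mul] at e3
    have e4 : T N p m ≤ K / n := by
      rw [le_div_iff₀ hn0]
      linarith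
    have e5 := e3.trans e4
    have hK0 : 0 < K := by linarith
    rw [← Real.le_log_iff_exp_le (by positivity), Real.log_div hK0.ne' hn0.ne'] at e5
    have e6 : ((m - 1 : ℕ) : ℝ) + 1 = m := by
      have : m - 1 + 1 = m := by omega
      exact_mod_cast this
    rw [e6]
    have e7 : (m : ℝ) * -(4 / J) * J = -(4 * m) := by
      field_simp
    have e8 : (m : ℝ) * -(4 / J) * J ≤ (Real.log K - Real.log n) * J := by
      gcongr
    rw [e7] at e8
    linarith

/-- **Binomial estimates.** -/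
theorem st_B4 (C : ℝ) (e : ℝ) (he : 0 < e) :
    ∃ n0 : ℕ, ∀ n : ℕ, n0 ≤ n → ∀ p : ℝ, 0 < p → p < 1 →
      (Real.log n) ^ 12 / 4 ≤ n * p * (1 - p) →
      ∃ t : ℕ, 1 ≤ t ∧ t ≤ n - 1 ∧ 1 / e ≤ n * T (n - 1) p t ∧
        n * T (n - 1) p (t - ⌊C * (Real.log n) ^ 5⌋₊) ≤ e * (Real.log n) ^ 5 ∧
        b (n - 2) p (t - 1) ≤ e * T (n - 1) p t ∧
        2 * (Real.log n) ^ 5 + 1 ≤ (t : ℝ) := by
  obtain ⟨K, hKdef⟩ : ∃ K : ℝ, K = max 1 (1 / e) := ⟨_, rfl⟩
  have hK1 : 1 ≤ K := by rw [hKdef]; exact le_max_left _ _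
  have hKe : 1 / e ≤ K := by rw [hKdef]; exact le_max_right _ _
  obtain ⟨D, hD⟩ : ∃ D : ℝ, D = 4 * |C| + 2 := ⟨_, rfl⟩
  have hCa : 0 ≤ |C| := abs_nonneg C
  have hD2 : 2 ≤ D := by linarith
  obtain ⟨L0, hL0⟩ : ∃ L0 : ℝ, L0 = 1152 * D ^ 2 + 4 / e + 2 * K / e + 2 * K + Real.log K := ⟨_, rfl⟩
  have hlK : 0 ≤ Real.log K := Real.log_nonneg hK1
  have hlog : Filter.Tendsto (fun n : ℕ => Real.log n) Filter.atTop Filter.atTop :=
    Real.tendsto_log_atTop.comp tendsto_natCast_atTop_atTop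
  obtain ⟨n1, hn1⟩ := Filter.eventually_atTop.1 (hlog.eventually_ge_atTop L0)
  refine ⟨max n1 2, fun n hn p h0 h1 hp => ?_⟩
  have hL := hn1 n (le_of_max_le_left hn)
  have hn2 : 2 ≤ n := le_of_max_le_right hn
  obtain ⟨L, hLdef⟩ : ∃ L : ℝ, L = Real.log n := ⟨_, rfl⟩
  rw [← hLdef] at hL hp ⊢
  have he4 : 0 < 4 / e := by positivity
  have heK : 0 < 2 * K / e := by positivity
  have hDD : 4 ≤ D ^ 2 := by nlinarith
  have hLD : 1152 * D ^ 2 ≤ L := by linarith
  have hL2 : 2 ≤ L := by linarith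
  have hL1 : 1 ≤ L := by linarith
  have hL5 : L ≤ L ^ 5 := by
    calc L = L ^ 1 := (pow_one L).symm
      _ ≤ L ^ 5 := pow_le_pow_right₀ hL1 (by norm_num)
  have hLn : L ≤ n := by
    rw [hLdef]
    have := Real.log_le_sub_one_of_pos (x := (n : ℝ)) (by
      have : (2 : ℝ) ≤ n := by exact_mod_cast hn2
      linarith)
    linarith
  have hnr : (2 : ℝ) ≤ n := by exact_mod_cast hn2
  have hp1 : 0 < 1 - p := by linarith
  obtain ⟨v, hv⟩ : ∃ v : ℝ, v = ((n - 1 : ℕ) : ℝ) * p * (1 - p) := ⟨_, rfl⟩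
  have hvL : L ^ 12 / 8 ≤ v := by
    rw [hv, Nat.cast_sub (by omega)]
    have e1 : 0 < p * (1 - p) := by positivity
    push_cast
    nlinarith
  have hv0 : 0 ≤ v := by
    have : 0 ≤ L ^ 12 := by positivity
    linarith
  obtain ⟨w, hw⟩ : ∃ w : ℝ, w = Real.sqrt (v * L) := ⟨_, rfl⟩
  have hw0 : 0 ≤ w := by rw [hw]; exact Real.sqrt_nonneg _
  have hw2 : w ^ 2 = v * L := by rw [hw]; exact Real.sq_sqrt (by positivity)
  obtain ⟨J, hJ⟩ : ∃ J, J = ⌈(4 * |C| + 1) * L ^ 5⌉₊ := ⟨_, rfl⟩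
  have hJ1 : (4 * |C| + 1) * L ^ 5 ≤ J := by rw [hJ]; exact Nat.le_ceil _
  have hJ2 : (J : ℝ) < (4 * |C| + 1) * L ^ 5 + 1 := by
    rw [hJ]
    exact Nat.ceil_lt_add_one (by positivity)
  have hJA : (J : ℝ) ≤ D * L ^ 5 := by
    have : (1 : ℝ) ≤ L ^ 5 := by linarith
    rw [hD]
    nlinarith
  have hJL : L ^ 5 ≤ J := by nlinarith
  have hJge : 1 ≤ J := by
    have : (1 : ℝ) ≤ J := by linarith
    exact_mod_cast this
  have hx : 4 * (⌊C * L ^ 5⌋₊ + 1) ≤ J := by
    have e1 : (⌊C * L ^ 5⌋₊ : ℝ) ≤ |C| * L ^ 5 := by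
      rcases le_or_gt 0 C with hC | hC
      · have := Nat.floor_le (a := C * L ^ 5) (by positivity)
        rw [abs_of_nonneg hC]
        exact this
      · have : ⌊C * L ^ 5⌋₊ = 0 := by
          apply Nat.floor_of_nonpos
          have : 0 < L ^ 5 := by positivity
          nlinarith
        rw [this]
        simp only [Nat.cast_zero]
        positivity
    have e2 : (4 : ℝ) ≤ L ^ 5 := by
      calc (4 : ℝ) ≤ 2 ^ 5 := by norm_num
        _ ≤ L ^ 5 := by gcongr
    have e3 : ((4 * (⌊C * L ^ 5⌋₊ + 1) : ℕ) : ℝ) ≤ J := by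
      push_cast
      linarith
    exact_mod_cast e3
  have hpow : L ^ 12 = L ^ 11 * L := by ring
  have hc : (J : ℝ) * (3 * w + 1 + J) ≤ v / 2 := by
    have hA1 : 1 ≤ D * L ^ 5 := by
      have : (1 : ℝ) ≤ L ^ 5 := by linarith
      nlinarith
    have e0 : (J : ℝ) * (3 * w + 1 + J) ≤ (D * L ^ 5) * (3 * w + 1 + D * L ^ 5) := by
      gcongr
    have e1 : 3 * (D * L ^ 5) * w ≤ v / 4 := by
      have e2 : (3 * (D * L ^ 5) * w) ^ 2 ≤ (v / 4) ^ 2 := by
        have e3 : (3 * (D * L ^ 5) * w) ^ 2 = 9 * D ^ 2 * L ^ 11 * v := by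
          rw [mul_pow, hw2]
          ring
        rw [e3]
        have e4 : 144 * D ^ 2 * L ^ 11 ≤ v := by
          have : 1152 * D ^ 2 * L ^ 11 ≤ L * L ^ 11 := by
            have : 0 ≤ L ^ 11 := by positivity
            nlinarith
          nlinarith
        nlinarith
      exact le_of_sq_le_sq e2 (by positivity)
    have e5 : (D * L ^ 5) * (1 + D * L ^ 5) ≤ v / 4 := by
      have e6 : (D * L ^ 5) * (1 + D * L ^ 5) ≤ 2 * (D ^ 2 * L ^ 10) := by
        have : D ^ 2 * L ^ 10 = (D * L ^ 5) * (D * L ^ 5) := by ring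
        rw [this]
        nlinarith
      have e7 : 64 * (D ^ 2 * L ^ 10) ≤ L ^ 12 := by
        have e8 : 64 * D ^ 2 ≤ L ^ 2 := by nlinarith
        calc 64 * (D ^ 2 * L ^ 10) = (64 * D ^ 2) * L ^ 10 := by ring
          _ ≤ L ^ 2 * L ^ 10 := by gcongr
          _ = L ^ 12 := by ring
      linarith
    linarith
  obtain ⟨t, ht1, ht2, ht3, ht4, ht5, ht6⟩ := thr n J ⌊C * L ^ 5⌋₊ p K w h0 h1 hn2 hK1 (by linarith) hw0
    (by rw [hw2, hv, hLdef]) (by
      rw [← hLdef, ← hv]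
      have : L * 8 ≤ L ^ 12 := by
        calc L * 8 ≤ L * L ^ 11 := by
              gcongr
              calc (8 : ℝ) ≤ L := by linarith
                _ = L ^ 1 := (pow_one L).symm
                _ ≤ L ^ 11 := pow_le_pow_right₀ hL1 (by norm_num)
          _ = L ^ 12 := by ring
      linarith) hJge (by rw [← hv]; exact hc) hx
  refine ⟨t, ht1, ht2, hKe.trans ht3, ?_, ?_, ?_⟩
  · refine ht4.trans ?_
    have e1 : 2 * K / e ≤ L ^ 5 := by linarith
    rw [div_le_iff₀ he] at e1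
    linarith
  · refine ht5.trans ?_
    have hT := T_nonneg (n - 1) h0.le h1.le t
    gcongr
    rw [div_le_iff₀ (by positivity)]
    have e1 : 4 / e ≤ J := by linarith
    rw [div_le_iff₀ he] at e1
    linarith
  · rw [← hLdef] at ht6
    have e1 : L ^ 5 * 16 ≤ J * (L - Real.log K) := by
      have : 16 ≤ L - Real.log K := by nlinarith
      gcongr
    have e2 : 1 ≤ L ^ 5 := by linarith
    linarith

theorem st_B (C : ℝ) (e : ℝ) (he : 0 < e) :
    ∃ n0 : ℕ, ∀ n : ℕ, n0 ≤ n → ∀ p : ℝ, 0 < p → p < 1 →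
      (Real.log n) ^ 12 ≤ n * p * (1 - p) →
      ∃ t : ℕ, 1 ≤ t ∧ t ≤ n - 1 ∧ 1 / e ≤ n * T (n - 1) p t ∧
        n * T (n - 1) p (t - ⌊C * (Real.log n) ^ 5⌋₊) ≤ e * (Real.log n) ^ 5 ∧
        b (n - 2) p (t - 1) ≤ e * T (n - 1) p t ∧
        2 * (Real.log n) ^ 5 + 1 ≤ (t : ℝ) := by
  obtain ⟨n0, h⟩ := st_B4 C e he
  refine ⟨n0, fun n hn p h0 h1 hp => h n hn p h0 h1 ?_⟩
  have : 0 ≤ (Real.log n) ^ 12 := by
    have := Even.pow_nonneg (by decide : Even 12) (Real.log n)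
    exact this
  linarith

end Pool.Agent.Helper32.AAG
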