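import Pool.Agent.Helper32.AAG.Bs
import Pool.Agent.Helper15.RG.Moment
import Pool.Agent.Helper46.NB.Stmts

set_option autoImplicit false

/-! The random graph for `c0 ln n ≤ n p ≤ (ln n)^13`. -/

namespace Pool.Agent.Helper32.AAG

open Finset Pool.Agent.Helper15.RG
open scoped Classical

theorem bt_eq (N k : ℕ) (p : ℝ) : bt N k p = b N p k := rfl

theorem BT_eq (N t : ℕ) (p : ℝ) : BT N t p = T N p t := by
  unfold BT T
  have h : (range (N + 1)).filter (fun k => t ≤ k) = Ico t (N + 1) := by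
    ext k
    simp [and_comm]
  rw [h]
  rfl

/-- Chebyshev for sparse graphs -/
theorem cheb2 (n t : ℕ) (p ε C : ℝ) (hp0 : 0 ≤ p) (hp1 : p ≤ 1) (hn : 2 ≤ n) (ht : 1 ≤ t)
    (hε : 0 < ε) (h1 : 1 / ε ≤ n * BT (n - 1) t p)
    (h2 : bt (n - 2) (t - 1) p ≤ C * BT (n - 1) t p) (h3 : p * C ^ 2 ≤ ε) :
    exG n p (fun G => if Z t G = 0 then 1 else 0) ≤ 2 * ε := by
  set T := BT (n - 1) t p with hT
  set β := bt (n - 2) (t - 1) p with hβ
  have hβ0 : 0 ≤ β := bt_nonneg _ _ _ hp0 hp1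
  have hn0 : (0 : ℝ) < n := by exact_mod_cast (by omega : 0 < n)
  have hnT : 0 < n * T := lt_of_lt_of_le (by positivity) h1
  have hT0 : 0 < T := by
    by_contra hc
    push Not at hc
    have : n * T ≤ 0 := mul_nonpos_of_nonneg_of_nonpos hn0.le hc
    linarith
  have hE : exG n p (fun G => ((Z t G : ℝ) - n * T) ^ 2) ≤ n * T + n * n * (p * β ^ 2) := by
    have h3 : (fun G : SimpleGraph (Fin n) => ((Z t G : ℝ) - n * T) ^ 2) =
        fun G => (Z t G : ℝ) ^ 2 + ((-(2 * (n * T))) * (Z t G : ℝ) + (n * T) ^ 2 * 1) := by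
      funext G
      ring
    rw [h3, exG_add, exG_add, exG_smul, exG_smul, exG_one, moment1, moment2 n t p hn ht, ← hT, ← hβ]
    have hpq : p * (1 - p) ≤ p := by nlinarith
    have hpq0 : 0 ≤ p * (1 - p) := mul_nonneg hp0 (by linarith)
    have h5 : p * (1 - p) * β ^ 2 ≤ p * β ^ 2 :=
      mul_le_mul_of_nonneg_right hpq (sq_nonneg β)
    have h6 : 0 ≤ p * (1 - p) * β ^ 2 := mul_nonneg hpq0 (sq_nonneg β)
    have h7 : (n : ℝ) * (n - 1) * (T ^ 2 + p * (1 - p) * β ^ 2) ≤
        (n : ℝ) * n * (T ^ 2 + p * (1 - p) * β ^ 2) := by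
      apply mul_le_mul_of_nonneg_right _ (by positivity)
      nlinarith
    have h8 : (n : ℝ) * n * (p * (1 - p) * β ^ 2) ≤ (n : ℝ) * n * (p * β ^ 2) :=
      mul_le_mul_of_nonneg_left h5 (by positivity)
    nlinarith
  have hM : (n * T) ^ 2 * exG n p (fun G => if Z t G = 0 then 1 else 0) ≤
      exG n p (fun G => ((Z t G : ℝ) - n * T) ^ 2) := by
    rw [← exG_smul]
    apply exG_mono n p hp0 hp1
    intro G
    split_ifs with hc
    · rw [hc]
      simp
    · rw [mul_zero]
      exact sq_nonneg _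
  have h9 := hM.trans hE
  have h10 : n * T ≤ ε * (n * T) ^ 2 := by
    have : 1 ≤ ε * (n * T) := by
      rw [div_le_iff₀ hε] at h1
      linarith
    nlinarith
  have h11 : n * n * (p * β ^ 2) ≤ (n * T) ^ 2 * ε := by
    have h12 : β ^ 2 ≤ (C * T) ^ 2 := pow_le_pow_left₀ hβ0 h2 2
    calc (n : ℝ) * n * (p * β ^ 2) ≤ n * n * (p * (C * T) ^ 2) := by gcongr
      _ = (n * T) ^ 2 * (p * C ^ 2) := by ring
      _ ≤ (n * T) ^ 2 * ε := by gcongr
  have h13 : (n * T) ^ 2 * exG n p (fun G => if Z t G = 0 then 1 else 0) ≤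
      (n * T) ^ 2 * (2 * ε) := by linarith
  exact le_of_mul_le_mul_left h13 (by positivity)

/-- a part of a star -/
theorem part_star (n : ℕ) (p : ℝ) (hp0 : 0 ≤ p) (hp1 : p ≤ 1) (u : Fin n)
    (F : Finset (Sym2 (Fin n))) (hF : F ⊆ star n u) (k : ℕ) :
    ex p F (fun A => if k ≤ A.card then 1 else 0) ≤ BT (n - 1) k p := by
  rw [← ex_marg p (EE n) F (hF.trans (star_sub n u)) (fun A => if k ≤ A.card then 1 else 0)]
  have h1 : BT (n - 1) k p = ex p (EE n) (fun S => if k ≤ (S ∩ star n u).card then 1 else 0) := by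
    rw [ex_marg p (EE n) (star n u) (star_sub n u) (fun A => if k ≤ A.card then 1 else 0),
      ex_card p (star n u) (fun c => if k ≤ c then (1 : ℝ) else 0), card_star, tail_eq]
  rw [h1]
  apply ex_mono p hp0 hp1
  intro S _
  have h2 : (S ∩ F).card ≤ (S ∩ star n u).card :=
    Finset.card_le_card (Finset.inter_subset_inter_left hF)
  by_cases hc : k ≤ (S ∩ F).card
  · rw [if_pos hc, if_pos (hc.trans h2)]
  · rw [if_neg hc]
    split_ifs <;> norm_num

/-- two neighbours of high degree -/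
theorem cherry (n : ℕ) (p : ℝ) (hp0 : 0 ≤ p) (hp1 : p ≤ 1) (v u w : Fin n) (hvu : v ≠ u)
    (hvw : v ≠ w) (huw : u ≠ w) (m : ℕ) :
    exG n p (fun G => if G.Adj v u ∧ G.Adj v w ∧ m ≤ dg G u ∧ m ≤ dg G w then 1 else 0) ≤
      p ^ 2 * BT (n - 1) (m - 2) p ^ 2 := by
  obtain ⟨F0, hF0⟩ : ∃ F : Finset (Sym2 (Fin n)), F = {s(v, u), s(v, w)} := ⟨_, rfl⟩
  obtain ⟨F1, hF1⟩ : ∃ F : Finset (Sym2 (Fin n)), F = star n u \ {s(v, u), s(u, w)} := ⟨_, rfl⟩
  obtain ⟨F2, hF2⟩ : ∃ F : Finset (Sym2 (Fin n)), F = star n w \ {s(v, w), s(u, w)} := ⟨_, rfl⟩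
  have hne : s(v, u) ≠ s(v, w) := fun h => huw (Sym2.congr_right.mp h)
  have hF0c : F0.card = 2 := by rw [hF0, Finset.card_pair hne]
  have hF0E : F0 ⊆ EE n := by
    intro e he
    rw [hF0, Finset.mem_insert, Finset.mem_singleton] at he
    rw [mem_EE]
    rcases he with rfl | rfl
    · simpa using hvu
    · simpa using hvw
  have hF1E : F1 ⊆ EE n \ F0 := by
    intro e he
    rw [hF1, Finset.mem_sdiff] at he
    rw [Finset.mem_sdiff]
    refine ⟨star_sub n u he.1, ?_⟩
    intro h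
    rw [hF0, Finset.mem_insert, Finset.mem_singleton] at h
    rcases h with rfl | rfl
    · exact he.2 (by simp)
    · have h2 := (Finset.mem_filter.mp he.1).2
      rw [Sym2.mem_iff] at h2
      rcases h2 with h2 | h2
      · exact hvu h2.symm
      · exact huw h2
  have hF2E : F2 ⊆ (EE n \ F0) \ F1 := by
    intro e he
    rw [hF2, Finset.mem_sdiff] at he
    rw [Finset.mem_sdiff, Finset.mem_sdiff]
    refine ⟨⟨star_sub n w he.1, ?_⟩, ?_⟩
    · intro h
      rw [hF0, Finset.mem_insert, Finset.mem_singleton] at h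
      rcases h with rfl | rfl
      · have h2 := (Finset.mem_filter.mp he.1).2
        rw [Sym2.mem_iff] at h2
        rcases h2 with h2 | h2
        · exact hvw h2.symm
        · exact huw h2.symm
      · exact he.2 (by simp)
    · intro h
      rw [hF1, Finset.mem_sdiff] at h
      have h2 : e ∈ star n u ∩ star n w := Finset.mem_inter.mpr ⟨h.1, he.1⟩
      rw [star_inter n u w huw, Finset.mem_singleton] at h2
      exact he.2 (by rw [h2]; simp)
  have hstep : exG n p (fun G => if G.Adj v u ∧ G.Adj v w ∧ m ≤ dg G u ∧ m ≤ dg G w then 1 else 0) ≤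
      ex p (EE n) (fun S => (if F0 ⊆ S ∩ F0 then 1 else 0) *
        ((if m - 2 ≤ ((S \ F0) ∩ F1).card then 1 else 0) *
          (if m - 2 ≤ (((S \ F0) \ F1) ∩ F2).card then 1 else 0))) := by
    rw [exG_eq]
    apply ex_mono p hp0 hp1
    intro S hS
    by_cases hc : (SimpleGraph.fromEdgeSet (S : Set (Sym2 (Fin n)))).Adj v u ∧
        (SimpleGraph.fromEdgeSet (S : Set (Sym2 (Fin n)))).Adj v w ∧
        m ≤ dg (SimpleGraph.fromEdgeSet (S : Set (Sym2 (Fin n)))) u ∧
        m ≤ dg (SimpleGraph.fromEdgeSet (S : Set (Sym2 (Fin n)))) w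
    · rw [if_pos hc]
      obtain ⟨h1, h2, h3, h4⟩ := hc
      rw [SimpleGraph.fromEdgeSet_adj, Finset.mem_coe] at h1 h2
      rw [dg_from n S hS] at h3 h4
      have h5 : F0 ⊆ S ∩ F0 := by
        intro e he
        rw [Finset.mem_inter]
        refine ⟨?_, he⟩
        rw [hF0, Finset.mem_insert, Finset.mem_singleton] at he
        rcases he with rfl | rfl
        · exact h1.1
        · exact h2.1
      have h6 : m - 2 ≤ ((S \ F0) ∩ F1).card := by
        have e1 : S ∩ star n u ⊆ ((S \ F0) ∩ F1) ∪ {s(v, u), s(u, w)} := by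
          intro e he
          rw [Finset.mem_inter] at he
          rw [Finset.mem_union, Finset.mem_inter, Finset.mem_sdiff]
          by_cases hc : e ∈ ({s(v, u), s(u, w)} : Finset (Sym2 (Fin n)))
          · exact Or.inr hc
          · left
            have e2 : e ∈ F1 := by
              rw [hF1, Finset.mem_sdiff]
              exact ⟨he.2, hc⟩
            have e3 := hF1E e2
            rw [Finset.mem_sdiff] at e3
            exact ⟨⟨he.1, e3.2⟩, e2⟩
        have e2 := (Finset.card_le_card e1).trans (Finset.card_union_le _ _)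
        have e3 : ({s(v, u), s(u, w)} : Finset (Sym2 (Fin n))).card ≤ 2 := Finset.card_le_two
        omega
      have h7 : m - 2 ≤ (((S \ F0) \ F1) ∩ F2).card := by
        have e1 : S ∩ star n w ⊆ (((S \ F0) \ F1) ∩ F2) ∪ {s(v, w), s(u, w)} := by
          intro e he
          rw [Finset.mem_inter] at he
          rw [Finset.mem_union, Finset.mem_inter, Finset.mem_sdiff, Finset.mem_sdiff]
          by_cases hc : e ∈ ({s(v, w), s(u, w)} : Finset (Sym2 (Fin n)))
          · exact Or.inr hc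
          · left
            have e2 : e ∈ F2 := by
              rw [hF2, Finset.mem_sdiff]
              exact ⟨he.2, hc⟩
            have e3 := hF2E e2
            rw [Finset.mem_sdiff, Finset.mem_sdiff] at e3
            exact ⟨⟨⟨he.1, e3.1.2⟩, e3.2⟩, e2⟩
        have e2 := (Finset.card_le_card e1).trans (Finset.card_union_le _ _)
        have e3 : ({s(v, w), s(u, w)} : Finset (Sym2 (Fin n))).card ≤ 2 := Finset.card_le_two
        omega
      rw [if_pos h5, if_pos h6, if_pos h7]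
      norm_num
    · rw [if_neg hc]
      split_ifs <;> norm_num
  refine hstep.trans ?_
  rw [ex_split p (EE n) F0 hF0E (fun A => if F0 ⊆ A then 1 else 0)
    (fun B => (if m - 2 ≤ (B ∩ F1).card then 1 else 0) *
      (if m - 2 ≤ ((B \ F1) ∩ F2).card then 1 else 0))]
  rw [ex_sub p F0 F0 (Finset.Subset.refl _), hF0c]
  rw [ex_split p (EE n \ F0) F1 hF1E (fun A => if m - 2 ≤ A.card then 1 else 0)
    (fun B => if m - 2 ≤ (B ∩ F2).card then 1 else 0)]
  rw [ex_marg p ((EE n \ F0) \ F1) F2 hF2E (fun A => if m - 2 ≤ A.card then 1 else 0)]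
  have hF1s : F1 ⊆ star n u := by rw [hF1]; exact Finset.sdiff_subset
  have hF2s : F2 ⊆ star n w := by rw [hF2]; exact Finset.sdiff_subset
  have k1 := part_star n p hp0 hp1 u F1 hF1s (m - 2)
  have k2 := part_star n p hp0 hp1 w F2 hF2s (m - 2)
  have k0 : 0 ≤ ex p F2 (fun A => if m - 2 ≤ A.card then 1 else 0) := by
    have := ex_mono p hp0 hp1 F2 (fun _ => 0) (fun A => if m - 2 ≤ A.card then 1 else 0)
      (fun S _ => by split_ifs <;> norm_num)
    have h0 : ex p F2 (fun _ => (0 : ℝ)) = 0 := by simp [ex]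
    rw [h0] at this
    exact this
  have kB := BT_nonneg (n - 1) (m - 2) p hp0 hp1
  calc p ^ 2 * (ex p F1 (fun A => if m - 2 ≤ A.card then 1 else 0) *
        ex p F2 (fun A => if m - 2 ≤ A.card then 1 else 0)) ≤
      p ^ 2 * (BT (n - 1) (m - 2) p * BT (n - 1) (m - 2) p) := by
        apply mul_le_mul_of_nonneg_left _ (by positivity)
        exact mul_le_mul k1 k2 k0 kB
    _ = p ^ 2 * BT (n - 1) (m - 2) p ^ 2 := by ring

/-- a vertex with two neighbours of degree at least `m` -/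
def Bad {n : ℕ} (m : ℕ) (G : SimpleGraph (Fin n)) : Prop :=
  ∃ v u w : Fin n, u ≠ w ∧ G.Adj v u ∧ G.Adj v w ∧ m ≤ dg G u ∧ m ≤ dg G w

theorem bad_le (n : ℕ) (p : ℝ) (hp0 : 0 ≤ p) (hp1 : p ≤ 1) (m : ℕ) :
    exG n p (fun G => if Bad m G then 1 else 0) ≤
      n * p ^ 2 * (n * BT (n - 1) (m - 2) p) ^ 2 := by
  have h1 : exG n p (fun G => if Bad m G then 1 else 0) ≤
      exG n p (fun G => ∑ x ∈ (univ : Finset (Fin n × Fin n × Fin n)),
        (if x.2.1 ≠ x.2.2 ∧ (G.Adj x.1 x.2.1 ∧ G.Adj x.1 x.2.2 ∧ m ≤ dg G x.2.1 ∧ m ≤ dg G x.2.2)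
          then (1 : ℝ) else 0)) := by
    apply exG_mono n p hp0 hp1
    intro G
    by_cases hc : Bad m G
    · rw [if_pos hc]
      obtain ⟨v, u, w, h⟩ := hc
      have h2 : (if (v, u, w).2.1 ≠ (v, u, w).2.2 ∧ (G.Adj (v, u, w).1 (v, u, w).2.1 ∧
          G.Adj (v, u, w).1 (v, u, w).2.2 ∧ m ≤ dg G (v, u, w).2.1 ∧ m ≤ dg G (v, u, w).2.2)
          then (1 : ℝ) else 0) = 1 := if_pos h
      refine le_trans (le_of_eq h2.symm) ?_
      exact Finset.single_le_sum (f := fun x : Fin n × Fin n × Fin n =>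
        (if x.2.1 ≠ x.2.2 ∧ (G.Adj x.1 x.2.1 ∧ G.Adj x.1 x.2.2 ∧ m ≤ dg G x.2.1 ∧ m ≤ dg G x.2.2)
          then (1 : ℝ) else 0)) (fun x _ => by split_ifs <;> norm_num)
        (Finset.mem_univ (v, u, w))
    · rw [if_neg hc]
      exact Finset.sum_nonneg (fun x _ => by split_ifs <;> norm_num)
  refine h1.trans ?_
  rw [exG_sum]
  have h2 : ∀ x ∈ (univ : Finset (Fin n × Fin n × Fin n)), exG n p (fun G =>
      (if x.2.1 ≠ x.2.2 ∧ (G.Adj x.1 x.2.1 ∧ G.Adj x.1 x.2.2 ∧ m ≤ dg G x.2.1 ∧ m ≤ dg G x.2.2)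
          then (1 : ℝ) else 0)) ≤ p ^ 2 * BT (n - 1) (m - 2) p ^ 2 := by
    rintro ⟨v, u, w⟩ _
    have hB := BT_nonneg (n - 1) (m - 2) p hp0 hp1
    have hz : exG n p (fun _ => 0) = 0 := by simp [exG]
    by_cases h3 : u = w
    · have : (fun G : SimpleGraph (Fin n) => (if (v, u, w).2.1 ≠ (v, u, w).2.2 ∧ (G.Adj (v, u, w).1 (v, u, w).2.1 ∧
          G.Adj (v, u, w).1 (v, u, w).2.2 ∧ m ≤ dg G (v, u, w).2.1 ∧ m ≤ dg G (v, u, w).2.2)
          then (1 : ℝ) else 0)) = fun _ => 0 := by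
        funext G
        rw [if_neg]
        intro h
        exact h.1 h3
      rw [this, hz]
      positivity
    · by_cases h4 : v = u ∨ v = w
      · have : (fun G : SimpleGraph (Fin n) => (if (v, u, w).2.1 ≠ (v, u, w).2.2 ∧ (G.Adj (v, u, w).1 (v, u, w).2.1 ∧
          G.Adj (v, u, w).1 (v, u, w).2.2 ∧ m ≤ dg G (v, u, w).2.1 ∧ m ≤ dg G (v, u, w).2.2)
          then (1 : ℝ) else 0)) = fun _ => 0 := by
          funext G
          rw [if_neg]
          intro h
          rcases h4 with h4 | h4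
          · exact G.ne_of_adj h.2.1 h4
          · exact G.ne_of_adj h.2.2.1 h4
        rw [this, hz]
        positivity
      · push Not at h4
        refine le_trans ?_ (cherry n p hp0 hp1 v u w h4.1 h4.2 h3 m)
        apply exG_mono n p hp0 hp1
        intro G
        by_cases hc : G.Adj v u ∧ G.Adj v w ∧ m ≤ dg G u ∧ m ≤ dg G w
        · rw [if_pos hc]
          split_ifs <;> norm_num
        · rw [if_neg hc, if_neg (fun h => hc h.2)]
  refine (Finset.sum_le_sum h2).trans ?_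
  rw [Finset.sum_const, Finset.card_univ, nsmul_eq_mul, Fintype.card_prod, Fintype.card_prod,
    Fintype.card_fin]
  push_cast
  apply le_of_eq
  ring

/-- The list edge colouring conjecture for `G`, together with `χ' = Δ`. -/
def LECG {n : ℕ} (G : SimpleGraph (Fin n)) : Prop :=
  ∀ k : ℕ, (G.lineGraph.Colorable k ↔ ∀ L : G.edgeSet → Finset ℕ, (∀ e, k ≤ #(L e)) →
      ∃ f : G.edgeSet → ℕ, (∀ e, f e ∈ L e) ∧ ∀ e e', G.lineGraph.Adj e e' → f e ≠ f e') ∧
    (G.lineGraph.Colorable k ↔ ∀ v, (G.neighborSet v).ncard ≤ k)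

theorem dg_deg {n : ℕ} (G : SimpleGraph (Fin n)) (v : Fin n) : dg G v = G.degree v := by
  unfold dg
  rw [← SimpleGraph.card_neighborFinset_eq_degree, ← Set.ncard_coe_finset,
    SimpleGraph.coe_neighborFinset]

theorem det (hG : Pool.Agent.Helper46.NB.ST_GAPL) {n : ℕ} (G : SimpleGraph (Fin n)) (t m B : ℕ)
    (ht2 : 2 ≤ t) (hZ : Z t G ≠ 0) (hB : Z B G = 0) (hbad : ¬ Bad m G)
    (hnum : (m : ℝ) ≤ t - 2 - 10 ^ 6 * Real.sqrt B * Real.log B ^ 2) : LECG G := by
  have h1 : t ≤ G.maxDegree := by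
    obtain ⟨v, hv⟩ := Finset.card_ne_zero.mp hZ
    rw [Finset.mem_filter] at hv
    rw [dg_deg] at hv
    exact hv.2.trans (G.degree_le_maxDegree v)
  have hB' : ∀ v, dg G v < B := by
    intro v
    by_contra hc
    push Not at hc
    have h2 := Finset.card_eq_zero.mp hB
    have h3 : v ∈ univ.filter (fun v : Fin n => B ≤ dg G v) := by simp [hc]
    rw [h2] at h3
    exact absurd h3 (Finset.notMem_empty v)
  have h2 : G.maxDegree ≤ B := by
    apply G.maxDegree_le_of_forall_degree_le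
    intro v
    rw [← dg_deg]
    exact (hB' v).le
  have hΔ1 : (1 : ℝ) ≤ G.maxDegree := by
    have : 1 ≤ G.maxDegree := by omega
    exact_mod_cast this
  have h3 : Real.sqrt G.maxDegree * Real.log G.maxDegree ^ 2 ≤ Real.sqrt B * Real.log B ^ 2 := by
    have h4 : (G.maxDegree : ℝ) ≤ B := by exact_mod_cast h2
    have h5 := Real.log_nonneg hΔ1
    have h6 := Real.log_le_log (by linarith) h4
    gcongr
  have key := hG (Fin n) G 1 (by omega) (by
    intro v
    rw [Finset.card_le_one]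
    intro u hu w hw
    by_contra huw
    apply hbad
    rw [Finset.mem_filter, SimpleGraph.mem_neighborFinset] at hu hw
    have h7 : (t : ℝ) ≤ G.maxDegree := by exact_mod_cast h1
    have h8 : ∀ z, (G.maxDegree : ℝ) - 2 * ((1 : ℕ) : ℝ) -
        10 ^ 6 * Real.sqrt G.maxDegree * Real.log G.maxDegree ^ 2 < (G.degree z : ℝ) →
        m ≤ dg G z := by
      intro z hz
      rw [dg_deg]
      push_cast at hz
      have h9 : (m : ℝ) < G.degree z := by
        have : 10 ^ 6 * Real.sqrt G.maxDegree * Real.log G.maxDegree ^ 2 ≤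
            10 ^ 6 * Real.sqrt B * Real.log B ^ 2 := by
          rw [mul_assoc, mul_assoc]
          gcongr
        linarith
      have : m < G.degree z := by exact_mod_cast h9
      exact this.le
    exact ⟨v, u, w, huw, hu.1, hw.1, h8 u hu.2, h8 w hw.2⟩)
  intro k
  refine ⟨(key k).1, (key k).2.trans ?_⟩
  constructor
  · intro h v
    have := dg_deg G v
    unfold dg at this
    rw [this]
    exact (G.degree_le_maxDegree v).trans h
  · intro h
    apply G.maxDegree_le_of_forall_degree_le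
    intro v
    have := dg_deg G v
    unfold dg at this
    rw [← this]
    exact h v

theorem pow_log_small (k : ℕ) (c : ℝ) (hc : 0 < c) :
    ∀ᶠ n : ℕ in Filter.atTop, (Real.log n) ^ k ≤ c * n := by
  have h := (Real.isLittleO_pow_log_id_atTop (n := k)).bound hc
  have h2 := tendsto_natCast_atTop_atTop (R := ℝ) |>.eventually h
  filter_upwards [h2, Filter.eventually_ge_atTop 1] with n hn hn1
  have h1 : (0 : ℝ) ≤ n := Nat.cast_nonneg _
  have h3 : (1 : ℝ) ≤ n := by exact_mod_cast hn1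
  have h4 := Real.log_nonneg h3
  rw [Real.norm_of_nonneg (by positivity)] at hn
  simpa [abs_of_nonneg h1] using hn

theorem log_small (a K c : ℝ) (hK : 0 ≤ K) (hc : 0 < c) :
    ∀ᶠ n : ℕ in Filter.atTop,
      4 + K * (a + 13 * Real.log (Real.log n)) ^ 2 ≤ c * Real.sqrt (Real.log n) := by
  have h0 : ∀ᶠ s : ℝ in Filter.atTop, 4 + K * (a + 26 * Real.log s) ^ 2 ≤ c * s := by
    have h1 := (Real.isLittleO_pow_log_id_atTop (n := 2)).bound
      (show 0 < c / (4 * (K * 1352 + 1)) by positivity)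
    filter_upwards [h1, Filter.eventually_ge_atTop (1 : ℝ),
      Filter.eventually_ge_atTop (16 / c), Filter.eventually_ge_atTop (4 * (K * (2 * a ^ 2)) / c)]
      with s hs hs1 hs2 hs3
    have hs0 : 0 < s := by linarith
    rw [Real.norm_of_nonneg (by positivity)] at hs
    simp only [id, Real.norm_eq_abs, abs_of_nonneg hs0.le] at hs
    rw [div_le_iff₀ hc] at hs2 hs3
    have h3 : (a + 26 * Real.log s) ^ 2 ≤ 2 * a ^ 2 + 1352 * Real.log s ^ 2 := by
      nlinarith [sq_nonneg (a - 26 * Real.log s)]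
    have h4 : K * (1352 * Real.log s ^ 2) ≤ c * s / 4 := by
      have h5 : (K * 1352 + 1) * (c / (4 * (K * 1352 + 1)) * s) = c * s / 4 := by
        field_simp
      have h6 : 0 ≤ Real.log s ^ 2 := sq_nonneg _
      calc K * (1352 * Real.log s ^ 2) ≤ (K * 1352 + 1) * Real.log s ^ 2 := by nlinarith
        _ ≤ (K * 1352 + 1) * (c / (4 * (K * 1352 + 1)) * s) := by gcongr
        _ = c * s / 4 := h5
    have h7 : K * (a + 26 * Real.log s) ^ 2 ≤ K * (2 * a ^ 2 + 1352 * Real.log s ^ 2) := by gcongr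
    nlinarith
  have h1 : Filter.Tendsto (fun n : ℕ => Real.sqrt (Real.log n)) Filter.atTop Filter.atTop :=
    Real.tendsto_sqrt_atTop.comp (Real.tendsto_log_atTop.comp tendsto_natCast_atTop_atTop)
  filter_upwards [h1.eventually h0, Filter.eventually_ge_atTop 1] with n hn hn1
  have h3 : (1 : ℝ) ≤ n := by exact_mod_cast hn1
  have h4 := Real.log_nonneg h3
  have h5 : Real.log (Real.sqrt (Real.log n)) = Real.log (Real.log n) / 2 := Real.log_sqrt h4
  rw [h5] at hn
  have h6 : a + 26 * (Real.log (Real.log n) / 2) = a + 13 * Real.log (Real.log n) := by ring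
  rw [h6] at hn
  exact hn

/-- **The window.** -/
theorem WIN (hG : Pool.Agent.Helper46.NB.ST_GAPL) (c0 : ℝ) (hc0 : 0 < c0) (e : ℝ) (he : 0 < e) :
    ∃ n0 : ℕ, ∀ n : ℕ, n0 ≤ n → ∀ p : ℝ, 0 ≤ p → c0 * Real.log n ≤ n * p →
      n * p ≤ (Real.log n) ^ 13 →
      1 - e ≤ exG n p (fun G => if LECG G then 1 else 0) := by
  obtain ⟨e', he'⟩ : ∃ e' : ℝ, e' = e / 6 := ⟨_, rfl⟩
  have he0 : 0 < e' := by rw [he']; positivity
  obtain ⟨c, C, hc, hC, n1, hn1⟩ := st_B2 c0 (1 / 4) e' hc0 (by norm_num) he0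
  have hq : ∀ᶠ n : ℕ in Filter.atTop, (n1 ≤ n ∧ 3 ≤ n) ∧ ((Real.log n) ^ 13 ≤ (1 / 2) * n ∧
      (Real.log n) ^ 13 ≤ (e' / C ^ 2) * n) ∧ (1 / e' ≤ (n : ℝ) ∧ (Real.log n) ^ 52 ≤ e' ^ 2 * n) ∧
      (4 + (10 ^ 6 * Real.sqrt (C + 1)) * (Real.log (C + 1) + 13 * Real.log (Real.log n)) ^ 2 ≤
        c * Real.sqrt (Real.log n) ∧ 1 / c0 + 1 ≤ Real.log n) := by
    have hlog : Filter.Tendsto (fun n : ℕ => Real.log n) Filter.atTop Filter.atTop :=
      Real.tendsto_log_atTop.comp tendsto_natCast_atTop_atTop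
    exact ((Filter.eventually_ge_atTop n1).and (Filter.eventually_ge_atTop 3)).and
      (((pow_log_small 13 _ (by norm_num)).and (pow_log_small 13 _ (by positivity))).and
      (((tendsto_natCast_atTop_atTop (R := ℝ)).eventually_ge_atTop (1 / e') |>.and
        (pow_log_small 52 _ (by positivity))).and
      ((log_small _ _ c (by positivity) hc).and (hlog.eventually_ge_atTop _))))
  obtain ⟨n0, hn0⟩ := Filter.eventually_atTop.1 hq
  refine ⟨n0, fun n hn p hp0 hlo hhi => ?_⟩
  obtain ⟨⟨ha1, ha2⟩, ⟨hb1, hb2⟩, ⟨hc1, hc2⟩, hd1, hd2⟩ := hn0 n hn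
  have hnr : (3 : ℝ) ≤ n := by exact_mod_cast ha2
  have hnpos : (0 : ℝ) < n := by linarith
  obtain ⟨L, hL⟩ : ∃ L : ℝ, L = Real.log n := ⟨_, rfl⟩
  obtain ⟨d, hd⟩ : ∃ d : ℝ, d = n * p := ⟨_, rfl⟩
  have key := hn1 n ha1 p
  rw [← hL] at hlo hhi hb1 hb2 hc2 hd1 hd2 key
  rw [← hd] at hlo hhi key
  have hc0' : 0 < 1 / c0 := by positivity
  have hL1 : 1 ≤ L := by linarith
  have hd1' : 1 ≤ d := by
    have : 1 / c0 ≤ L := by linarith
    rw [div_le_iff₀ hc0] at this
    linarith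
  have hp : 0 < p := by
    by_contra hcon
    push Not at hcon
    have : p = 0 := le_antisymm hcon hp0
    rw [this] at hd
    linarith
  have hp2 : p ≤ 1 / 2 := by
    have : n * p ≤ n * (1 / 2) := by rw [← hd]; linarith
    exact le_of_mul_le_mul_left this hnpos
  have hpC : p * C ^ 2 ≤ e' := by
    have h1 : n * p ≤ n * (e' / C ^ 2) := by rw [← hd]; linarith
    have h2 := le_of_mul_le_mul_left h1 hnpos
    rw [le_div_iff₀ (by positivity)] at h2
    exact h2
  obtain ⟨t, ht1, ht2, ht3, ht4, ht5, ht6, ht7⟩ := key hp hp2 hlo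
  obtain ⟨x, hx⟩ : ∃ x, x = ⌈c * Real.sqrt (d * L)⌉₊ := ⟨_, rfl⟩
  obtain ⟨B, hB⟩ : ∃ B, B = ⌈C * d⌉₊ := ⟨_, rfl⟩
  rw [← hx] at ht4
  rw [← hB] at ht7
  have hp1 : p ≤ 1 := by linarith
  -- the numerical condition
  have hx1 : 4 + 10 ^ 6 * Real.sqrt B * Real.log B ^ 2 ≤ x := by
    have hB1 : (B : ℝ) ≤ (C + 1) * d := by
      have h1 : (B : ℝ) < C * d + 1 := by
        rw [hB]
        exact Nat.ceil_lt_add_one (by positivity)
      linarith
    have hBpos : (1 : ℝ) ≤ B := by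
      have h1 : 0 < B := by
        rw [hB]
        exact Nat.ceil_pos.mpr (by positivity)
      exact_mod_cast h1
    have hsB : Real.sqrt B ≤ Real.sqrt (C + 1) * Real.sqrt d := by
      rw [← Real.sqrt_mul (by positivity)]
      exact Real.sqrt_le_sqrt hB1
    have hlB : Real.log B ≤ Real.log (C + 1) + 13 * Real.log L := by
      calc Real.log B ≤ Real.log ((C + 1) * d) := Real.log_le_log (by linarith) hB1
        _ = Real.log (C + 1) + Real.log d := Real.log_mul (by positivity) (by linarith)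
        _ ≤ Real.log (C + 1) + Real.log (L ^ 13) := by
          have := Real.log_le_log (by linarith) hhi
          linarith
        _ = Real.log (C + 1) + 13 * Real.log L := by
          rw [Real.log_pow]
          push_cast
          ring
    have hlB0 := Real.log_nonneg hBpos
    have hsd : 1 ≤ Real.sqrt d := by
      rw [Real.one_le_sqrt]
      exact hd1'
    have h1 : 10 ^ 6 * Real.sqrt B * Real.log B ^ 2 ≤
        10 ^ 6 * (Real.sqrt (C + 1) * Real.sqrt d) * (Real.log (C + 1) + 13 * Real.log L) ^ 2 := by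
      gcongr
    have h2 : (x : ℝ) ≥ c * Real.sqrt (d * L) := by rw [hx]; exact Nat.le_ceil _
    have h3 : Real.sqrt (d * L) = Real.sqrt d * Real.sqrt L := Real.sqrt_mul (by linarith) _
    rw [h3] at h2
    have h4 : Real.sqrt d * (4 + (10 ^ 6 * Real.sqrt (C + 1)) * (Real.log (C + 1) + 13 * Real.log L) ^ 2) ≤
        Real.sqrt d * (c * Real.sqrt L) := by gcongr
    linarith
  have hxt : x < t := by
    by_contra hcon
    push Not at hcon
    have h1 : t - x = 0 := by omega
    rw [h1, T_zero, mul_one] at ht4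
    have h2 : (n : ℝ) ^ (1 / 4 : ℝ) < (n : ℝ) ^ (1 : ℝ) :=
      Real.rpow_lt_rpow_of_exponent_lt (by linarith) (by norm_num)
    rw [Real.rpow_one] at h2
    linarith
  obtain ⟨m, hm⟩ : ∃ m, m = t - x + 2 := ⟨_, rfl⟩
  have hm2 : m - 2 = t - x := by omega
  have hmr : (m : ℝ) = t - x + 2 := by
    rw [hm]
    push_cast [Nat.cast_sub hxt.le]
    ring
  have hx4 : 4 ≤ x := by
    have h1 : (4 : ℝ) ≤ x := by
      have : 0 ≤ 10 ^ 6 * Real.sqrt B * Real.log B ^ 2 := by positivity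
      linarith
    exact_mod_cast h1
  -- the three bad events
  have hE1 : exG n p (fun G => if Z t G = 0 then 1 else 0) ≤ 2 * e' :=
    cheb2 n t p e' C hp0 hp1 (by omega) ht1 he0 (by rw [BT_eq]; exact ht3)
      (by rw [BT_eq, bt_eq]; exact ht5) hpC
  have hE2 : exG n p (fun G => if Z B G ≠ 0 then 1 else 0) ≤ e' := by
    have h1 : exG n p (fun G => if Z B G ≠ 0 then 1 else 0) ≤ exG n p (fun G => (Z B G : ℝ)) := by
      apply exG_mono n p hp0 hp1
      intro G
      split_ifs with hc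
      · have : 1 ≤ Z B G := Nat.one_le_iff_ne_zero.mpr hc
        exact_mod_cast this
      · exact Nat.cast_nonneg _
    rw [moment1, BT_eq] at h1
    have h2 : 1 / (n : ℝ) ≤ e' := by
      rw [div_le_iff₀ hnpos]
      rw [div_le_iff₀ he0] at hc1
      linarith
    linarith
  have hE3 : exG n p (fun G => if Bad m G then 1 else 0) ≤ e' := by
    refine (bad_le n p hp0 hp1 m).trans ?_
    rw [hm2, BT_eq]
    have hT := T_nonneg (n - 1) hp0 hp1 (t - x)
    have h1 : (n * T (n - 1) p (t - x)) ^ 2 ≤ Real.sqrt n := by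
      calc (n * T (n - 1) p (t - x)) ^ 2 ≤ ((n : ℝ) ^ (1 / 4 : ℝ)) ^ 2 :=
            pow_le_pow_left₀ (by positivity) ht4 2
        _ = Real.sqrt n := by
            rw [Real.sqrt_eq_rpow, ← Real.rpow_natCast, ← Real.rpow_mul hnpos.le]
            norm_num
    have h2 : n * p ^ 2 * (n * T (n - 1) p (t - x)) ^ 2 ≤ n * p ^ 2 * Real.sqrt n := by gcongr
    refine h2.trans ?_
    have hs : 0 < Real.sqrt n := Real.sqrt_pos.mpr hnpos
    have hss : Real.sqrt n * Real.sqrt n = n := Real.mul_self_sqrt hnpos.le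
    have h3 : n * p ^ 2 * Real.sqrt n = d ^ 2 / Real.sqrt n := by
      rw [eq_div_iff hs.ne', mul_assoc, hss, hd]
      ring
    rw [h3, div_le_iff₀ hs]
    have h4 : d ^ 2 ≤ L ^ 26 := by
      calc d ^ 2 ≤ (L ^ 13) ^ 2 := pow_le_pow_left₀ (by linarith) hhi 2
        _ = L ^ 26 := by ring
    have h5 : L ^ 26 ≤ e' * Real.sqrt n := by
      have h6 : (L ^ 26) ^ 2 ≤ (e' * Real.sqrt n) ^ 2 := by
        rw [mul_pow, Real.sq_sqrt hnpos.le, ← pow_mul]
        exact hc2
      exact le_of_sq_le_sq h6 (by positivity)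
    linarith
  -- conclusion
  have hfin : (1 : ℝ) ≤ exG n p (fun G => if LECG G then 1 else 0) +
      (exG n p (fun G => if Z t G = 0 then 1 else 0) +
      (exG n p (fun G => if Z B G ≠ 0 then 1 else 0) +
      exG n p (fun G => if Bad m G then 1 else 0))) := by
    rw [← exG_add, ← exG_add, ← exG_add]
    refine le_trans (le_of_eq (exG_one n p).symm) ?_
    apply exG_mono n p hp0 hp1
    intro G
    by_cases g1 : Z t G = 0
    · rw [if_pos g1]
      have : (0 : ℝ) ≤ if LECG G then 1 else 0 := by split_ifs <;> norm_num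
      have : (0 : ℝ) ≤ if Z B G ≠ 0 then 1 else 0 := by split_ifs <;> norm_num
      have : (0 : ℝ) ≤ if Bad m G then 1 else 0 := by split_ifs <;> norm_num
      linarith
    by_cases g2 : Z B G ≠ 0
    · rw [if_pos g2]
      have : (0 : ℝ) ≤ if LECG G then 1 else 0 := by split_ifs <;> norm_num
      have : (0 : ℝ) ≤ if Z t G = 0 then 1 else 0 := by split_ifs <;> norm_num
      have : (0 : ℝ) ≤ if Bad m G then 1 else 0 := by split_ifs <;> norm_num
      linarith
    by_cases g3 : Bad m G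
    · rw [if_pos g3]
      have : (0 : ℝ) ≤ if LECG G then 1 else 0 := by split_ifs <;> norm_num
      have : (0 : ℝ) ≤ if Z t G = 0 then 1 else 0 := by split_ifs <;> norm_num
      have : (0 : ℝ) ≤ if Z B G ≠ 0 then 1 else 0 := by split_ifs <;> norm_num
      linarith
    push Not at g2
    have g4 : LECG G := det hG G t m B (by omega) g1 g2 g3 (by rw [hmr]; linarith)
    rw [if_pos g4]
    have : (0 : ℝ) ≤ if Z t G = 0 then 1 else 0 := by split_ifs <;> norm_num
    have : (0 : ℝ) ≤ if Z B G ≠ 0 then 1 else 0 := by split_ifs <;> norm_num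
    have : (0 : ℝ) ≤ if Bad m G then 1 else 0 := by split_ifs <;> norm_num
    linarith
  linarith

end Pool.Agent.Helper32.AAG
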