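import Pool.Agent.Helper32.AAG.Bp

set_option autoImplicit false

/-! The binomial distribution for small success rates: a threshold with few values just below. -/

open Finset

namespace Pool.Agent.Helper32.AAG

theorem b_back (N : ℕ) (p : ℝ) (h0 : 0 < p) (h1 : p < 1) (Y : ℝ) (hY : 0 ≤ Y)
    (hYp : 2 * (Y * p) ≤ N * p * (1 - p)) (k : ℕ) (hk : k < N)
    (h : (k : ℝ) + 1 ≤ N * p + Y) :
    b N p k * (N * p * (1 - p)) ≤ (N * p * (1 - p) + 2 * Y) * b N p (k + 1) := by
  have hp1 : 0 < 1 - p := by linarith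
  have h3 : b N p (k + 1) * (((k : ℝ) + 1) * (1 - p)) = b N p k * ((N - k) * p) := by
    have e1 : (N.choose (k + 1) : ℝ) * (k + 1) = (N.choose k : ℝ) * (N - k) := by
      have := Nat.choose_succ_right_eq N k
      have h4 : ((N - k : ℕ) : ℝ) = (N : ℝ) - k := by rw [Nat.cast_sub hk.le]
      rw [← h4]
      exact_mod_cast this
    have e2 : (1 - p) ^ (N - k) = (1 - p) ^ (N - (k + 1)) * (1 - p) := by
      rw [← pow_succ]
      congr 1
      omega
    unfold b
    rw [e2]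
    calc (N.choose (k + 1) : ℝ) * p ^ (k + 1) * (1 - p) ^ (N - (k + 1)) * (((k : ℝ) + 1) * (1 - p))
        = (N.choose (k + 1) : ℝ) * (k + 1) * (p ^ (k + 1) * (1 - p) ^ (N - (k + 1)) * (1 - p)) := by
          ring
      _ = (N.choose k : ℝ) * (N - k) * (p ^ (k + 1) * (1 - p) ^ (N - (k + 1)) * (1 - p)) := by
          rw [e1]
      _ = (N.choose k : ℝ) * p ^ k * ((1 - p) ^ (N - (k + 1)) * (1 - p)) * ((N - k) * p) := by
          rw [pow_succ]
          ring
  have hkN : (k : ℝ) + 1 ≤ N := by exact_mod_cast hk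
  have hk0 : (0 : ℝ) ≤ (k : ℝ) := Nat.cast_nonneg _
  have hb1 := b_nonneg N h0.le h1.le (k + 1)
  have hb0 := b_nonneg N h0.le h1.le k
  have hN0 : (0 : ℝ) < N := by linarith
  obtain ⟨v, hv⟩ : ∃ v : ℝ, v = N * p * (1 - p) := ⟨_, rfl⟩
  have hv0 : 0 < v := by rw [hv]; positivity
  rw [← hv] at hYp ⊢
  have hden : 0 < ((N : ℝ) - k) * p := by
    have : (0 : ℝ) < N - k := by linarith
    positivity
  -- (k+1)(1-p) v ≤ (v + 2Y) (N-k) p
  have h4 : ((k : ℝ) + 1) * (1 - p) * v ≤ (v + 2 * Y) * ((N - k) * p) := by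
    obtain ⟨y, hy⟩ : ∃ y : ℝ, y = (k : ℝ) + 1 - N * p := ⟨_, rfl⟩
    have e1 : ((k : ℝ) + 1) * (1 - p) = v + y * (1 - p) := by
      rw [hy, hv]
      ring
    have e2 : ((N : ℝ) - k) * p = v - y * p + p := by
      rw [hy, hv]
      ring
    have hyY : y ≤ Y := by linarith
    rw [e1, e2]
    rcases le_or_gt 0 y with hy0 | hy0
    · have e3 : y * p ≤ Y * p := by gcongr
      have e4 : v / 2 ≤ v - y * p + p := by linarith
      have e5 : 0 ≤ Y * (v - y * p + p - v / 2) := mul_nonneg hY (by linarith)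
      have e6 : 0 ≤ (Y - y) * v := mul_nonneg (by linarith) hv0.le
      have e7 : 0 < p * v := mul_pos h0 hv0
      have e8 : (v + 2 * Y) * (v - y * p + p) - (v + y * (1 - p)) * v =
        2 * (Y * (v - y * p + p - v / 2)) + (Y - y) * v + p * v := by ring
      linarith
    · have e3 : (v + y * (1 - p)) * v ≤ v * v := by nlinarith [mul_pos hp1 hv0]
      have e4 : v * v ≤ (v + 2 * Y) * (v - y * p + p) := by
        have : v ≤ v - y * p + p := by nlinarith
        gcongr
        linarith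
      linarith
  have h6 : b N p k * v * ((N - k) * p) ≤ (v + 2 * Y) * b N p (k + 1) * ((N - k) * p) := by
    calc b N p k * v * ((N - k) * p) = b N p k * ((N - k) * p) * v := by ring
      _ = b N p (k + 1) * (((k : ℝ) + 1) * (1 - p)) * v := by rw [h3]
      _ = b N p (k + 1) * (((k : ℝ) + 1) * (1 - p) * v) := by ring
      _ ≤ b N p (k + 1) * ((v + 2 * Y) * ((N - k) * p)) := mul_le_mul_of_nonneg_left h4 hb1
      _ = (v + 2 * Y) * b N p (k + 1) * ((N - k) * p) := by ring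
  exact le_of_mul_le_mul_right h6 hden

/-- one step down for tails -/
theorem T_back (N S : ℕ) (p : ℝ) (h0 : 0 < p) (h1 : p < 1) (Y : ℝ) (hY : 0 ≤ Y) (hN : 0 < N)
    (hYp : 2 * (Y * p) ≤ N * p * (1 - p)) (hS : (S : ℝ) ≤ N * p + Y) (hSN : S ≤ N) :
    ∀ i : ℕ, i ≤ S → T N p (S - i) ≤
      (1 + 2 * Y / (N * p * (1 - p))) * T N p (S - i + 1) + T N p S := by
  have hp1 : 0 < 1 - p := by linarith
  have hNr : (0 : ℝ) < N := by exact_mod_cast hN
  obtain ⟨v, hv⟩ : ∃ v : ℝ, v = N * p * (1 - p) := ⟨_, rfl⟩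
  have hv0 : 0 < v := by rw [hv]; positivity
  rw [← hv] at hYp ⊢
  have hη : 0 ≤ 2 * Y / v := by positivity
  intro i
  induction i with
  | zero =>
    intro _
    rw [Nat.sub_zero]
    have e1 := T_nonneg N h0.le h1.le (S + 1)
    have : 0 ≤ (1 + 2 * Y / v) * T N p (S + 1) := by positivity
    linarith
  | succ i ih =>
    intro hi
    have e1 := ih (by omega)
    obtain ⟨k, hk⟩ : ∃ k, k = S - (i + 1) := ⟨_, rfl⟩
    have hk1 : S - i = k + 1 := by omega
    rw [hk1] at e1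
    rw [← hk, T_succ N p k, T_succ N p (k + 1)]
    have e2 := b_back N p h0 h1 Y hY (by rw [← hv]; exact hYp) k (by omega) (by
      have : (k : ℝ) + 1 ≤ S := by
        have : k + 1 ≤ S := by omega
        exact_mod_cast this
      linarith)
    rw [← hv] at e2
    have e3 : b N p k ≤ (1 + 2 * Y / v) * b N p (k + 1) := by
      have e4 : (1 + 2 * Y / v) * b N p (k + 1) = (v + 2 * Y) * b N p (k + 1) / v := by
        field_simp
      rw [e4, le_div_iff₀ hv0]
      exact e2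
    rw [T_succ N p (k + 1)] at e1
    linarith

/-- many steps down for tails -/
theorem T_backs (N S : ℕ) (p : ℝ) (h0 : 0 < p) (h1 : p < 1) (Y : ℝ) (hY : 0 ≤ Y) (hN : 0 < N)
    (hYp : 2 * (Y * p) ≤ N * p * (1 - p)) (hS : (S : ℝ) ≤ N * p + Y) (hSN : S ≤ N)
    (m : ℕ) (hm : m ≤ S) (x : ℕ) : T N p (m - x) ≤
      (1 + 2 * Y / (N * p * (1 - p))) ^ x * (T N p m + x * T N p S) := by
  have hp1 : 0 < 1 - p := by linarith
  have hNr : (0 : ℝ) < N := by exact_mod_cast hN
  have hη : 0 ≤ 2 * Y / (N * p * (1 - p)) := by positivity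
  have hTS := T_nonneg N h0.le h1.le S
  have hTm := T_nonneg N h0.le h1.le m
  induction x with
  | zero => simp
  | succ x ih =>
    have hq : 1 ≤ 1 + 2 * Y / (N * p * (1 - p)) := by linarith
    have e0 : 1 ≤ (1 + 2 * Y / (N * p * (1 - p))) ^ (x + 1) := one_le_pow₀ hq
    by_cases hmx : m ≤ x
    · have e1 : m - (x + 1) = m - x := by omega
      rw [e1]
      refine ih.trans ?_
      have e2 : (1 + 2 * Y / (N * p * (1 - p))) ^ x ≤ (1 + 2 * Y / (N * p * (1 - p))) ^ (x + 1) :=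
        pow_le_pow_right₀ hq (by omega)
      push_cast
      gcongr
      linarith
    · have e1 : m - (x + 1) = S - (S - (m - (x + 1))) := by omega
      have e2 : m - (x + 1) + 1 = m - x := by omega
      have e3 := T_back N S p h0 h1 Y hY hN hYp hS hSN (S - (m - (x + 1))) (by omega)
      rw [← e1, e2] at e3
      calc T N p (m - (x + 1)) ≤ (1 + 2 * Y / (N * p * (1 - p))) * T N p (m - x) + T N p S := e3
        _ ≤ (1 + 2 * Y / (N * p * (1 - p))) *
            ((1 + 2 * Y / (N * p * (1 - p))) ^ x * (T N p m + x * T N p S)) +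
            (1 + 2 * Y / (N * p * (1 - p))) ^ (x + 1) * T N p S := by
            have e4 : T N p S ≤ (1 + 2 * Y / (N * p * (1 - p))) ^ (x + 1) * T N p S :=
              le_mul_of_one_le_left hTS e0
            have e5 := mul_le_mul_of_nonneg_left ih (by linarith : (0 : ℝ) ≤ 1 + 2 * Y / (N * p * (1 - p)))
            linarith
        _ = (1 + 2 * Y / (N * p * (1 - p))) ^ (x + 1) * (T N p m + ((x + 1 : ℕ) : ℝ) * T N p S) := by
            push_cast
            ring

/-- the upper tail -/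
theorem T_tail (N : ℕ) (p L : ℝ) (h0 : 0 < p) (h1 : p < 1) (hN : 0 < N) (hL : 0 ≤ L) (S : ℕ)
    (hS : (N : ℝ) * p + (3 * Real.sqrt (N * p * (1 - p) * L) + 3 * L) ≤ S) :
    T N p S ≤ Real.exp (-(2 * L)) := by
  have hp1 : 0 < 1 - p := by linarith
  have hNr : (0 : ℝ) < N := by exact_mod_cast hN
  obtain ⟨v, hv⟩ : ∃ v : ℝ, v = N * p * (1 - p) := ⟨_, rfl⟩
  have hv0 : 0 < v := by rw [hv]; positivity
  rw [← hv] at hS
  have hs0 : 0 ≤ Real.sqrt (v * L) := Real.sqrt_nonneg _
  rcases le_or_gt L v with hLv | hLv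
  · have e0 : 0 ≤ Real.sqrt (L / v) := Real.sqrt_nonneg _
    have e1 : Real.sqrt (L / v) ^ 2 = L / v := Real.sq_sqrt (by positivity)
    obtain ⟨θ, hθ⟩ : ∃ θ, θ = Real.sqrt (L / v) := ⟨_, rfl⟩
    rw [← hθ] at e0 e1
    have e2 : θ ≤ 1 := by
      have : θ ^ 2 ≤ 1 := by
        rw [e1, div_le_one hv0]
        exact hLv
      nlinarith
    have e3 : θ ^ 2 * v = L := by
      rw [e1]
      exact div_mul_cancel₀ _ hv0.ne'
    have e4 : θ * Real.sqrt (v * L) = L := by
      have e5 : (θ * Real.sqrt (v * L)) ^ 2 = L ^ 2 := by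
        rw [mul_pow, Real.sq_sqrt (by positivity), ← mul_assoc, e3]
        ring
      have e6 : 0 ≤ θ * Real.sqrt (v * L) := by positivity
      nlinarith
    have e5 := T_exp N S p θ h0.le h1.le e0 e2
    rw [← hv] at e5
    refine e5.trans (Real.exp_le_exp.2 ?_)
    have e6 : θ * (3 * Real.sqrt (v * L)) ≤ θ * (S - N * p) := by
      gcongr
      linarith
    linarith
  · have e5 := T_exp N S p 1 h0.le h1.le zero_le_one le_rfl
    rw [← hv] at e5
    refine e5.trans (Real.exp_le_exp.2 ?_)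
    linarith

/-- the threshold for small success rates, explicit form -/
theorem thrS (n S : ℕ) (p K Y : ℝ) (h0 : 0 < p) (h1 : p < 1) (hn : 2 ≤ n)
    (hK : 1 ≤ K) (hKn : 2 * K ≤ n) (hY : 0 ≤ Y)
    (hNp : 1 ≤ ((n - 1 : ℕ) : ℝ) * p)
    (hYp : 2 * (Y * p) ≤ ((n - 1 : ℕ) : ℝ) * p * (1 - p)) (hS : (S : ℝ) ≤ ((n - 1 : ℕ) : ℝ) * p + Y)
    (hSN : S ≤ n - 1) (hT : n * T (n - 1) p S ≤ 1 / n) (x : ℕ) (hxn : x + 1 ≤ n) :
    ∃ t : ℕ, 1 ≤ t ∧ t ≤ n - 1 ∧ t ≤ S ∧ K ≤ n * T (n - 1) p t ∧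
      n * T (n - 1) p (t - x) ≤
        (1 + 2 * Y / (((n - 1 : ℕ) : ℝ) * p * (1 - p))) ^ (x + 1) * (K + 1) ∧
      b (n - 2) p (t - 1) * (((n - 1 : ℕ) : ℝ) * p) ≤ t * T (n - 1) p t := by
  obtain ⟨N, hN⟩ : ∃ N, N = n - 1 := ⟨_, rfl⟩
  rw [← hN] at hYp hS hT hSN hNp ⊢
  have hN2 : n - 2 = N - 1 := by omega
  rw [hN2]
  have hnr : (2 : ℝ) ≤ n := by exact_mod_cast hn
  have hn0 : (0 : ℝ) < n := by linarith
  have hN0 : 0 < N := by omega
  have hNr : (0 : ℝ) < N := by exact_mod_cast hN0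
  have hp1 : 0 < 1 - p := by linarith
  have hlt : (1 : ℝ) / n < 1 := by
    rw [div_lt_one hn0]
    linarith
  have hTS : n * T N p S < K := by linarith
  have hex : ∃ m : ℕ, n * T N p m < K := ⟨S, hTS⟩
  classical
  obtain ⟨m, hm⟩ : ∃ m, m = Nat.find hex := ⟨_, rfl⟩
  have hm1 : n * T N p m < K := by rw [hm]; exact Nat.find_spec hex
  have hmS : m ≤ S := by rw [hm]; exact Nat.find_min' hex hTS
  have hmin : ∀ k < m, K ≤ n * T N p k := by
    intro k hk
    rw [hm] at hk
    exact not_lt.1 (Nat.find_min hex hk)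
  have hm2 : 2 ≤ m := by
    by_contra hcon
    push Not at hcon
    have e1 : T N p 1 ≤ T N p m := T_anti N h0.le h1.le (by omega)
    have e3 := T_succ N p 0
    rw [T_zero, zero_add] at e3
    have e4 : b N p 0 ≤ 1 / 2 := by
      have e5 : b N p 0 = (1 - p) ^ N := by
        simp [b]
      have e6 : (1 - p) ^ N ≤ Real.exp (-p) ^ N :=
        pow_le_pow_left₀ hp1.le (Real.one_sub_le_exp_neg p) N
      have e7 : Real.exp (-p) ^ N ≤ 1 / 2 := by
        rw [← Real.exp_nat_mul]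
        calc Real.exp (N * -p) ≤ Real.exp (-1) := Real.exp_le_exp.2 (by linarith)
          _ ≤ 1 / 2 := by
            rw [Real.exp_neg, inv_eq_one_div]
            have : (2 : ℝ) ≤ Real.exp 1 := by
              have := Real.add_one_le_exp (1 : ℝ)
              linarith
            exact one_div_le_one_div_of_le (by norm_num) this
      rw [e5]
      linarith
    have e5 : 1 / 2 ≤ T N p m := by linarith
    have e6 : n * (1 / 2 : ℝ) ≤ n * T N p m := by gcongr
    linarith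
  refine ⟨m - 1, by omega, by omega, by omega, hmin _ (by omega), ?_, ?_⟩
  · have e1 := T_backs N S p h0 h1 Y hY hN0 hYp hS hSN m hmS (x + 1)
    have e2 : m - 1 - x = m - (x + 1) := by omega
    rw [e2]
    have hη : 0 ≤ 2 * Y / (N * p * (1 - p)) := by positivity
    calc (n : ℝ) * T N p (m - (x + 1)) ≤
        n * ((1 + 2 * Y / (N * p * (1 - p))) ^ (x + 1) * (T N p m + ((x + 1 : ℕ) : ℝ) * T N p S)) := by
          gcongr
      _ = (1 + 2 * Y / (N * p * (1 - p))) ^ (x + 1) * (n * T N p m + ((x + 1 : ℕ) : ℝ) * (n * T N p S)) := by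
          ring
      _ ≤ (1 + 2 * Y / (N * p * (1 - p))) ^ (x + 1) * (K + 1) := by
          have e3 : ((x + 1 : ℕ) : ℝ) * (n * T N p S) ≤ n * (1 / n) := by
            have : ((x + 1 : ℕ) : ℝ) ≤ n := by exact_mod_cast hxn
            have hTS0 : 0 ≤ n * T N p S := mul_nonneg hn0.le (T_nonneg N h0.le h1.le S)
            exact mul_le_mul this hT hTS0 hn0.le
          have e4 : (n : ℝ) * (1 / n) = 1 := by field_simp
          rw [e4] at e3
          gcongr
  · have e2 := b_pred N p (m - 1) (by omega) (by omega)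
    rw [e2]
    have hTT := T_succ N p (m - 1)
    have hT' := T_nonneg N h0.le h1.le (m - 1 + 1)
    gcongr
    linarith

/-- **Binomial estimates, small success rates.** -/
theorem st_B2 (c0 δ e : ℝ) (hc0 : 0 < c0) (hδ : 0 < δ) (he : 0 < e) :
    ∃ c C : ℝ, 0 < c ∧ 0 < C ∧ ∃ n0 : ℕ, ∀ n : ℕ, n0 ≤ n → ∀ p : ℝ, 0 < p → p ≤ 1 / 2 →
      c0 * Real.log n ≤ n * p →
      ∃ t : ℕ, 1 ≤ t ∧ t ≤ n - 1 ∧ 1 / e ≤ n * T (n - 1) p t ∧
        n * T (n - 1) p (t - ⌈c * Real.sqrt (n * p * Real.log n)⌉₊) ≤ (n : ℝ) ^ δ ∧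
        b (n - 2) p (t - 1) ≤ C * T (n - 1) p t ∧
        (t : ℝ) ≤ C * (n * p) ∧ n * T (n - 1) p ⌈C * (n * p)⌉₊ ≤ 1 / n := by
  obtain ⟨K, hKdef⟩ : ∃ K : ℝ, K = max 1 (1 / e) := ⟨_, rfl⟩
  have hK1 : 1 ≤ K := by rw [hKdef]; exact le_max_left _ _
  have hKe : 1 / e ≤ K := by rw [hKdef]; exact le_max_right _ _
  obtain ⟨q, hq⟩ : ∃ q : ℝ, q = 1 / Real.sqrt c0 := ⟨_, rfl⟩
  have hq0 : 0 < q := by rw [hq]; positivity
  have hqc : q ^ 2 * c0 = 1 := by
    rw [hq, div_pow, one_pow, Real.sq_sqrt hc0.le]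
    field_simp
  obtain ⟨A, hA⟩ : ∃ A : ℝ, A = 3 + 4 * q := ⟨_, rfl⟩
  have hA0 : 0 < A := by linarith
  obtain ⟨c, hc⟩ : ∃ c : ℝ, c = δ / (16 * A) := ⟨_, rfl⟩
  have hcpos : 0 < c := by rw [hc]; positivity
  obtain ⟨C, hC⟩ : ∃ C : ℝ, C = 2 * (1 + A * q) := ⟨_, rfl⟩
  have hC0 : 0 < C := by rw [hC]; positivity
  refine ⟨c, C, hcpos, hC0, ?_⟩
  have hlog : Filter.Tendsto (fun n : ℕ => Real.log n) Filter.atTop Filter.atTop :=
    Real.tendsto_log_atTop.comp tendsto_natCast_atTop_atTop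
  obtain ⟨L0, hL0⟩ : ∃ L0 : ℝ, L0 = 2 + 2 / c0 + 2 * K + (16 * A * q + Real.log (K + 1)) * 2 / δ := ⟨_, rfl⟩
  have hlK : 0 ≤ Real.log (K + 1) := Real.log_nonneg (by linarith)
  obtain ⟨n1, hn1⟩ := Filter.eventually_atTop.1 (hlog.eventually_ge_atTop L0)
  -- sqrt n dominates log n
  have hsq : ∀ᶠ n : ℕ in Filter.atTop, (A + c + 2) * (Real.sqrt (n * Real.log n)) + 2 ≤ (n : ℝ) / 8 := by
    have h1 : Filter.Tendsto (fun n : ℕ => Real.log n / (n : ℝ)) Filter.atTop (nhds 0) := by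
      have := Real.isLittleO_log_id_atTop.tendsto_div_nhds_zero
      exact this.comp tendsto_natCast_atTop_atTop
    have h2 : Filter.Tendsto (fun n : ℕ => (A + c + 2) * Real.sqrt (Real.log n / (n : ℝ)) + 2 / (n : ℝ))
        Filter.atTop (nhds 0) := by
      have h3 : Filter.Tendsto (fun n : ℕ => Real.sqrt (Real.log n / (n : ℝ))) Filter.atTop (nhds 0) := by
        have := (Real.continuous_sqrt.tendsto 0).comp h1
        rw [Real.sqrt_zero] at this
        exact this
      have h4 : Filter.Tendsto (fun n : ℕ => (2 : ℝ) / (n : ℝ)) Filter.atTop (nhds 0) :=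
        tendsto_const_div_atTop_nhds_zero_nat 2
      have h5 := (h3.const_mul (A + c + 2)).add h4
      simpa using h5
    have h6 := h2.eventually (gt_mem_nhds (by norm_num : (0 : ℝ) < 1 / 8))
    filter_upwards [h6, Filter.eventually_ge_atTop 2] with n hn hn2
    have hnr : (2 : ℝ) ≤ n := by exact_mod_cast hn2
    have hn0 : (0 : ℝ) < n := by linarith
    have e1 : Real.sqrt (n * Real.log n) = n * Real.sqrt (Real.log n / n) := by
      have e2 : (n : ℝ) * Real.log n = n ^ 2 * (Real.log n / n) := by field_simp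
      rw [e2, Real.sqrt_mul (by positivity), Real.sqrt_sq hn0.le]
    rw [e1]
    have e3 : (A + c + 2) * (n * Real.sqrt (Real.log n / n)) + 2 =
        n * ((A + c + 2) * Real.sqrt (Real.log n / n) + 2 / n) := by
      field_simp
    rw [e3]
    calc (n : ℝ) * ((A + c + 2) * Real.sqrt (Real.log n / n) + 2 / n) ≤ n * (1 / 8) := by gcongr
      _ = n / 8 := by ring
  obtain ⟨n2, hn2'⟩ := Filter.eventually_atTop.1 hsq
  refine ⟨max (max n1 n2) 2, fun n hn p h0 hp2 hp => ?_⟩
  have hL := hn1 n (le_of_max_le_left (le_of_max_le_left hn))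
  have hS8 := hn2' n (le_of_max_le_right (le_of_max_le_left hn))
  have hn2 : 2 ≤ n := le_of_max_le_right hn
  have h1 : p < 1 := by linarith
  have hp1 : 0 < 1 - p := by linarith
  obtain ⟨L, hLdef⟩ : ∃ L : ℝ, L = Real.log n := ⟨_, rfl⟩
  rw [← hLdef] at hL hp hS8 ⊢
  have hnr : (2 : ℝ) ≤ n := by exact_mod_cast hn2
  have hn0 : (0 : ℝ) < n := by linarith
  have hc0' : 0 < 2 / c0 := by positivity
  have hdiv : 0 ≤ (16 * A * q + Real.log (K + 1)) * 2 / δ := by positivity
  have hL2 : 2 ≤ L := by linarith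
  have hL0' : 0 < L := by linarith
  have hLn : L ≤ n := by
    rw [hLdef]
    have := Real.log_le_sub_one_of_pos hn0
    linarith
  obtain ⟨d, hd⟩ : ∃ d : ℝ, d = n * p := ⟨_, rfl⟩
  rw [← hd] at hp ⊢
  have hd0 : 0 < d := by rw [hd]; positivity
  have hdn : d ≤ n := by rw [hd]; nlinarith
  obtain ⟨w, hw⟩ : ∃ w : ℝ, w = Real.sqrt (d * L) := ⟨_, rfl⟩
  have hw0 : 0 < w := by rw [hw]; positivity
  have hw2 : w ^ 2 = d * L := by rw [hw]; exact Real.sq_sqrt (by positivity)
  rw [← hw]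
  -- L ≤ q w
  have hLw : L ≤ q * w := by
    have e1 : L ^ 2 ≤ (q * w) ^ 2 := by
      rw [mul_pow, hw2]
      have : L ≤ q ^ 2 * d := by
        calc L = q ^ 2 * (c0 * L) := by rw [← mul_assoc, hqc, one_mul]
          _ ≤ q ^ 2 * d := by gcongr
      calc L ^ 2 = L * L := by ring
        _ ≤ (q ^ 2 * d) * L := by gcongr
        _ = q ^ 2 * (d * L) := by ring
    exact le_of_sq_le_sq e1 (by positivity)
  -- w ≤ q d
  have hwd : w ≤ q * d := by
    have e1 : w ^ 2 ≤ (q * d) ^ 2 := by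
      rw [mul_pow, hw2]
      have : L ≤ q ^ 2 * d := by
        calc L = q ^ 2 * (c0 * L) := by rw [← mul_assoc, hqc, one_mul]
          _ ≤ q ^ 2 * d := by gcongr
      calc d * L ≤ d * (q ^ 2 * d) := by gcongr
        _ = q ^ 2 * d ^ 2 := by ring
    exact le_of_sq_le_sq e1 (by positivity)
  have hwn : w ≤ Real.sqrt (n * L) := by
    rw [hw]
    apply Real.sqrt_le_sqrt
    gcongr
  obtain ⟨N, hN⟩ : ∃ N, N = n - 1 := ⟨_, rfl⟩
  have hNr : (N : ℝ) = n - 1 := by
    rw [hN, Nat.cast_sub (by omega)]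
    push_cast
    ring
  have hNp : (N : ℝ) * p ≤ d := by rw [hNr, hd]; linarith
  have hNp2 : d / 2 ≤ N * p := by
    have := mul_le_mul_of_nonneg_right hnr h0.le
    rw [hNr, hd]
    linarith
  have hv1 : d / 4 ≤ N * p * (1 - p) := by
    calc d / 4 = d / 2 * (1 / 2) := by ring
      _ ≤ N * p * (1 - p) := by
        gcongr
        linarith
  have hv2 : (N : ℝ) * p * (1 - p) ≤ d := by
    have e1 : 0 ≤ (N : ℝ) * p := by linarith
    have e2 := mul_nonneg e1 h0.le
    linarith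
  obtain ⟨v, hv⟩ : ∃ v : ℝ, v = (N : ℝ) * p * (1 - p) := ⟨_, rfl⟩
  have hv0 : 0 < v := by rw [hv]; linarith
  obtain ⟨Z, hZ⟩ : ∃ Z : ℝ, Z = 3 * Real.sqrt (v * L) + 3 * L := ⟨_, rfl⟩
  have hZ0 : 0 ≤ Z := by rw [hZ]; positivity
  obtain ⟨S, hS⟩ : ∃ S, S = ⌈(N : ℝ) * p + Z⌉₊ := ⟨_, rfl⟩
  have hNp0 : 0 ≤ (N : ℝ) * p := by linarith
  have hS1 : (N : ℝ) * p + Z ≤ S := by rw [hS]; exact Nat.le_ceil _
  have hS2 : (S : ℝ) < N * p + Z + 1 := by rw [hS]; exact Nat.ceil_lt_add_one (by positivity)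
  have hZw : Z + 1 ≤ A * w := by
    have e1 : Real.sqrt (v * L) ≤ w := by
      rw [hw]
      apply Real.sqrt_le_sqrt
      rw [hv]
      gcongr
    rw [hZ, hA]
    have : 1 ≤ q * w := by linarith
    linarith
  have hN0 : 0 < N := by omega
  have hd2 : 2 ≤ d := by
    have : 2 / c0 ≤ L := by linarith
    rw [div_le_iff₀ hc0] at this
    linarith
  have hSN : S ≤ N := by
    have e1 : (S : ℝ) ≤ N := by
      have e2 : (N : ℝ) * p ≤ N / 2 := by
        have : (0 : ℝ) ≤ N := Nat.cast_nonneg _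
        have := mul_le_mul_of_nonneg_left hp2 this
        linarith
      have e3 : A * w ≤ A * Real.sqrt (n * L) := by gcongr
      have e4 : 0 ≤ (c + 2) * Real.sqrt (n * L) := by positivity
      have e5 : A * Real.sqrt (n * L) + (c + 2) * Real.sqrt (n * L) =
        (A + c + 2) * Real.sqrt (n * L) := by ring
      linarith
    exact_mod_cast e1
  have hTS : n * T N p S ≤ 1 / n := by
    have e1 := T_tail N p L h0 h1 hN0 hL0'.le S (by rw [← hv, ← hZ]; exact hS1)
    have e8 : Real.exp (-(2 * L)) = (1 / n) * (1 / n) := by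
      rw [hLdef, two_mul, neg_add, Real.exp_add, Real.exp_neg, Real.exp_log hn0]
      ring
    rw [e8] at e1
    calc n * T N p S ≤ n * ((1 / n) * (1 / n)) := by gcongr
      _ = 1 / n := by field_simp
  obtain ⟨x, hx⟩ : ∃ x, x = ⌈c * w⌉₊ := ⟨_, rfl⟩
  rw [← hx]
  have hx1 : (x : ℝ) < c * w + 1 := by rw [hx]; exact Nat.ceil_lt_add_one (by positivity)
  have hxn : x + 1 ≤ n := by
    have e1 : ((x + 1 : ℕ) : ℝ) ≤ n := by
      push_cast
      have e2 : c * w ≤ c * Real.sqrt (n * L) := by gcongr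
      have e4 : 0 ≤ (A + 2) * Real.sqrt (n * L) := by positivity
      have e5 : c * Real.sqrt (n * L) + (A + 2) * Real.sqrt (n * L) =
        (A + c + 2) * Real.sqrt (n * L) := by ring
      linarith
    exact_mod_cast e1
  have hAw : A * w ≤ v / (2 * p) := by
    rw [le_div_iff₀ (by positivity), hv]
    have e3 : A * w ≤ A * Real.sqrt (n * L) := by gcongr
    have e4 : 0 ≤ (c + 2) * Real.sqrt (n * L) := by positivity
    have e5 : A * Real.sqrt (n * L) + (c + 2) * Real.sqrt (n * L) =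
      (A + c + 2) * Real.sqrt (n * L) := by ring
    have e6 : A * w ≤ n / 8 := by linarith
    have e7 : (n : ℝ) / 4 ≤ N * (1 - p) := by
      rw [hNr]
      calc (n : ℝ) / 4 ≤ (n - 1) * (1 / 2) := by linarith
        _ ≤ (n - 1) * (1 - p) := by
          have : (0 : ℝ) ≤ n - 1 := by linarith
          gcongr
          linarith
    calc A * w * (2 * p) ≤ n / 8 * (2 * p) := by gcongr
      _ = (n / 4) * p := by ring
      _ ≤ N * (1 - p) * p := by gcongr
      _ = N * p * (1 - p) := by ring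
  obtain ⟨t, ht1, ht2, ht3, ht4, ht5, ht6⟩ := thrS n S p K (A * w) h0 h1 hn2 hK1 (by linarith)
    (by positivity) (by rw [← hN]; linarith) (by
      rw [← hN, ← hv]
      rw [le_div_iff₀ (by positivity)] at hAw
      linarith) (by rw [← hN]; linarith) (by rw [← hN]; exact hSN) (by rw [← hN]; exact hTS) x hxn
  rw [← hN] at ht2 ht4 ht5 ht6 ⊢
  have htC : (t : ℝ) ≤ C / 2 * d := by
    have e1 : (t : ℝ) ≤ S := by exact_mod_cast ht3
    have e2 : A * w ≤ A * (q * d) := by gcongr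
    rw [hC]
    linarith
  refine ⟨t, ht1, ht2, hKe.trans ht4, ?_, ?_, ?_, ?_⟩
  · refine ht5.trans ?_
    rw [← hv]
    have e1 : (1 + 2 * (A * w) / v) ^ (x + 1) ≤ Real.exp (((x + 1 : ℕ) : ℝ) * (2 * (A * w) / v)) := by
      rw [Real.exp_nat_mul]
      apply pow_le_pow_left₀ (by positivity)
      have := Real.add_one_le_exp (2 * (A * w) / v)
      linarith
    have e2 : ((x + 1 : ℕ) : ℝ) * (2 * (A * w) / v) ≤ δ / 2 * L + 16 * A * q := by
      have e3 : 2 * (A * w) / v ≤ 8 * (A * w) / d := by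
        rw [div_le_div_iff₀ hv0 hd0]
        have : d ≤ 4 * v := by rw [hv]; linarith
        have hAw0 : 0 < A * w := by positivity
        have := mul_le_mul_of_nonneg_left this hAw0.le
        linarith
      have e4 : ((x + 1 : ℕ) : ℝ) ≤ c * w + 2 := by
        push_cast
        linarith
      have e5 : (c * w + 2) * (8 * (A * w) / d) ≤ δ / 2 * L + 16 * A * q := by
        have e6 : (c * w + 2) * (8 * (A * w) / d) = 8 * A * c * (w ^ 2 / d) + 16 * A * (w / d) := by
          field_simp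
          ring
        rw [e6, hw2]
        have e7 : d * L / d = L := by field_simp
        rw [e7]
        have e8 : 8 * A * c = δ / 2 := by
          rw [hc]
          field_simp
          ring
        rw [e8]
        have e9 : w / d ≤ q := by
          rw [div_le_iff₀ hd0]
          exact hwd
        have e10 : 16 * A * (w / d) ≤ 16 * A * q := by gcongr
        linarith
      calc ((x + 1 : ℕ) : ℝ) * (2 * (A * w) / v) ≤ (c * w + 2) * (8 * (A * w) / d) := by gcongr
        _ ≤ _ := e5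
    have e3 : (n : ℝ) ^ δ = Real.exp (L * δ) := by
      rw [Real.rpow_def_of_pos hn0, ← hLdef]
    rw [e3]
    have hK0 : 0 < K + 1 := by linarith
    calc (1 + 2 * (A * w) / v) ^ (x + 1) * (K + 1) ≤
        Real.exp (δ / 2 * L + 16 * A * q) * (K + 1) := by
          gcongr
          exact e1.trans (Real.exp_le_exp.2 e2)
      _ = Real.exp (δ / 2 * L + 16 * A * q + Real.log (K + 1)) := by
          rw [Real.exp_add _ (Real.log (K + 1)), Real.exp_log hK0]
      _ ≤ Real.exp (L * δ) := by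
          apply Real.exp_le_exp.2
          have e4 : (16 * A * q + Real.log (K + 1)) * 2 / δ ≤ L := by linarith
          rw [div_le_iff₀ hδ] at e4
          linarith
  · have e1 : t * T N p t ≤ C / 2 * d * T N p t := by
      have := T_nonneg N h0.le h1.le t
      gcongr
    have e2 : C / 2 * d * T N p t ≤ C * T N p t * (N * p) := by
      have e3 := T_nonneg N h0.le h1.le t
      have e4 : 0 ≤ C * T N p t := by positivity
      have := mul_le_mul_of_nonneg_left hNp2 e4
      linarith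
    have e5 := (ht6.trans e1).trans e2
    have hNp0' : 0 < (N : ℝ) * p := by linarith
    exact le_of_mul_le_mul_right e5 hNp0'
  · have : 0 ≤ C / 2 * d := by positivity
    linarith
  · refine le_trans ?_ hTS
    have e1 : S ≤ ⌈C * d⌉₊ := by
      have e2 : A * w ≤ A * (q * d) := by gcongr
      have e3 : (S : ℝ) ≤ C * d := by
        rw [hC]
        have : 0 ≤ (1 + A * q) * d := by positivity
        linarith
      have e4 : (S : ℝ) ≤ ⌈C * d⌉₊ := e3.trans (Nat.le_ceil _)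
      exact_mod_cast e4
    have e5 := T_anti N h0.le h1.le e1
    gcongr

end Pool.Agent.Helper32.AAG
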