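import Mathlib

set_option autoImplicit false

/-!
MP_2f9829_co: almost all graphs satisfy the list edge colouring conjecture. Counting the graphs with
given degrees of one or two vertices.
-/

open Finset
open scoped Classical

namespace Pool.Agent.Helper32.AAG

/-- number of the subsets of an `N`-set with at least `s` elements -/
def tl (N s : ℕ) : ℕ := ∑ j ∈ Finset.Ico s (N + 1), N.choose j

variable {V : Type} [Fintype V]

/-- the neighbours -/
noncomputable def nb (G : SimpleGraph V) (u : V) : Finset V := univ.filter (fun w => G.Adj u w)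

theorem mem_nb {G : SimpleGraph V} {u w : V} : w ∈ nb G u ↔ G.Adj u w := by simp [nb]

omit [Fintype V] in
theorem symmDiff_adj (G H : SimpleGraph V) (a b : V) :
    (symmDiff G H).Adj a b ↔ ¬ (G.Adj a b ↔ H.Adj a b) := by
  rw [symmDiff_def, SimpleGraph.sup_adj, SimpleGraph.sdiff_adj, SimpleGraph.sdiff_adj]
  tauto

theorem nb_symmDiff (G H : SimpleGraph V) (u : V) : nb (symmDiff G H) u = symmDiff (nb G u) (nb H u) := by
  ext w
  rw [mem_nb, symmDiff_adj, Finset.mem_symmDiff, mem_nb, mem_nb]
  tauto

/-- the graph with prescribed neighbours of `u` and `v` -/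
def stg (u v : V) (A B : Finset V) : SimpleGraph V :=
  SimpleGraph.fromRel (fun a b => (a = u ∧ b ∈ A) ∨ (a = v ∧ b ∈ B))

/-- consistent pairs of neighbourhoods -/
def CP (u v : V) (q : Finset V × Finset V) : Prop := u ∉ q.1 ∧ v ∉ q.2 ∧ (v ∈ q.1 ↔ u ∈ q.2)

theorem nb_stg_left {u v : V} (h : u ≠ v) {A B : Finset V} (hc : CP u v (A, B)) :
    nb (stg u v A B) u = A := by
  obtain ⟨h1, h2, h3⟩ := hc
  ext w
  rw [mem_nb, stg, SimpleGraph.fromRel_adj]
  simp only at h1 h2 h3
  constructor
  · rintro ⟨-, (⟨-, h4⟩ | ⟨h4, -⟩) | (⟨-, h4⟩ | ⟨h4, h5⟩)⟩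
    · exact h4
    · exact absurd h4 h
    · exact absurd h4 h1
    · rw [h4]
      exact h3.mpr h5
  · intro hw
    refine ⟨fun h4 => h1 (h4 ▸ hw), Or.inl (Or.inl ⟨rfl, hw⟩)⟩

theorem nb_stg_right {u v : V} (h : u ≠ v) {A B : Finset V} (hc : CP u v (A, B)) :
    nb (stg u v A B) v = B := by
  obtain ⟨h1, h2, h3⟩ := hc
  ext w
  rw [mem_nb, stg, SimpleGraph.fromRel_adj]
  simp only at h1 h2 h3
  constructor
  · rintro ⟨-, (⟨h4, -⟩ | ⟨-, h4⟩) | (⟨h4, h5⟩ | ⟨-, h4⟩)⟩
    · exact absurd h4.symm h
    · exact h4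
    · rw [h4]
      exact h3.mp h5
    · exact absurd h4 h2
  · intro hw
    refine ⟨fun h4 => h2 (h4 ▸ hw), Or.inl (Or.inr ⟨rfl, hw⟩)⟩

/-- the fibres of the pair of neighbourhoods -/
noncomputable def fib (u v : V) (q : Finset V × Finset V) : Finset (SimpleGraph V) :=
  univ.filter (fun G => (nb G u, nb G v) = q)

theorem card_fib {u v : V} (h : u ≠ v) {q : Finset V × Finset V} (hc : CP u v q) :
    (fib u v q).card = (fib u v (∅, ∅)).card := by
  obtain ⟨A, B⟩ := q
  have hl := nb_stg_left h hc
  have hr := nb_stg_right h hc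
  apply Finset.card_nbij' (fun G => symmDiff G (stg u v A B)) (fun G => symmDiff G (stg u v A B))
  · intro G hG
    simp only [fib, coe_filter, mem_univ, true_and, Set.mem_ofPred_eq, Prod.mk.injEq] at hG ⊢
    rw [nb_symmDiff, nb_symmDiff, hl, hr, hG.1, hG.2]
    simp
  · intro G hG
    simp only [fib, coe_filter, mem_univ, true_and, Set.mem_ofPred_eq, Prod.mk.injEq] at hG ⊢
    rw [nb_symmDiff, nb_symmDiff, hl, hr, hG.1, hG.2]
    simp
  · intro G _
    exact symmDiff_symmDiff_cancel_right _ _
  · intro G _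
    exact symmDiff_symmDiff_cancel_right _ _

theorem CP_nb {u v : V} (G : SimpleGraph V) : CP u v (nb G u, nb G v) := by
  refine ⟨?_, ?_, ?_⟩
  · rw [mem_nb]
    exact G.loopless.irrefl u
  · rw [mem_nb]
    exact G.loopless.irrefl v
  · rw [mem_nb, mem_nb]
    exact G.adj_comm u v

/-- number of graphs with large degrees of `u` and `v` -/
theorem card_two {u v : V} (h : u ≠ v) (s t : ℕ) :
    (univ.filter (fun G : SimpleGraph V => s ≤ (nb G u).card ∧ t ≤ (nb G v).card)).card =
      (univ.filter (fun q : Finset V × Finset V => CP u v q ∧ s ≤ q.1.card ∧ t ≤ q.2.card)).card *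
        (fib u v (∅, ∅)).card := by
  rw [Finset.card_eq_sum_card_fiberwise (f := fun G : SimpleGraph V => (nb G u, nb G v))
    (t := univ.filter (fun q : Finset V × Finset V => CP u v q ∧ s ≤ q.1.card ∧ t ≤ q.2.card))]
  · rw [Finset.sum_const_nat (m := (fib u v (∅, ∅)).card)]
    intro q hq
    rw [mem_filter] at hq
    rw [← card_fib h hq.2.1]
    congr 1
    ext G
    simp only [mem_filter, mem_univ, true_and, fib]
    constructor
    · exact fun hG => hG.2
    · intro hG
      refine ⟨?_, hG⟩
      rw [← hG] at hq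
      exact hq.2.2
  · intro G hG
    simp only [coe_filter, mem_univ, true_and, Set.mem_ofPred_eq] at hG ⊢
    exact ⟨CP_nb G, hG⟩

omit [Fintype V] in
/-- subsets of a set with at least `s` elements -/
theorem card_large (W : Finset V) (s : ℕ) :
    (W.powerset.filter (fun A => s ≤ A.card)).card = tl W.card s := by
  rw [tl, Finset.card_eq_sum_card_fiberwise (f := Finset.card) (t := Finset.Ico s (W.card + 1))]
  · refine Finset.sum_congr rfl (fun j hj => ?_)
    rw [mem_Ico] at hj
    rw [← Finset.card_powersetCard]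
    congr 1
    ext A
    simp only [mem_filter, mem_powerset, mem_powersetCard]
    constructor
    · exact fun h => ⟨h.1.1, h.2⟩
    · exact fun h => ⟨⟨h.1, by omega⟩, h.2⟩
  · intro A hA
    simp only [coe_filter, mem_powerset, Set.mem_ofPred_eq] at hA
    simp only [coe_Ico, Set.mem_Ico]
    exact ⟨hA.2, by have := Finset.card_le_card hA.1; omega⟩

theorem mem_cpf {u v : V} {s t : ℕ} {q : Finset V × Finset V} :
    q ∈ univ.filter (fun q : Finset V × Finset V => CP u v q ∧ s ≤ q.1.card ∧ t ≤ q.2.card) ↔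
      (u ∉ q.1 ∧ v ∉ q.2 ∧ (v ∈ q.1 ↔ u ∈ q.2)) ∧ s ≤ q.1.card ∧ t ≤ q.2.card := by
  rw [mem_filter]
  simp only [mem_univ, true_and]
  rfl

/-- number of consistent pairs -/
theorem card_CP {u v : V} (h : u ≠ v) (s t : ℕ) :
    (univ.filter (fun q : Finset V × Finset V => CP u v q ∧ s ≤ q.1.card ∧ t ≤ q.2.card)).card =
      tl (Fintype.card V - 2) (s - 1) * tl (Fintype.card V - 2) (t - 1) +
        tl (Fintype.card V - 2) s * tl (Fintype.card V - 2) t := by
  set W : Finset V := (univ.erase u).erase v with hW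
  have hWc : W.card = Fintype.card V - 2 := by
    rw [hW, card_erase_of_mem (by simp [h.symm]), card_erase_of_mem (mem_univ u), card_univ]
    omega
  rw [← hWc, ← card_large W, ← card_large W, ← card_large W, ← card_large W]
  rw [← Finset.card_product, ← Finset.card_product]
  rw [← Finset.card_filter_add_card_filter_not (p := fun q : Finset V × Finset V => v ∈ q.1)]
  congr 1
  · apply Finset.card_nbij' (fun q => (q.1.erase v, q.2.erase u)) (fun q => (insert v q.1, insert u q.2))
    · rintro ⟨A, B⟩ hq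
      obtain ⟨hq1, h6⟩ := mem_filter.mp (mem_coe.mp hq)
      obtain ⟨⟨h1, h2, h3⟩, h4, h5⟩ := mem_cpf.mp hq1
      simp only at h1 h2 h3 h4 h5 h6
      have h7 := h3.mp h6
      simp only [coe_product, Set.mem_prod, mem_coe, mem_filter, mem_powerset]
      refine ⟨⟨?_, ?_⟩, ⟨?_, ?_⟩⟩
      · intro w hw
        rw [mem_erase] at hw
        rw [hW, mem_erase, mem_erase]
        exact ⟨hw.1, fun hh => h1 (hh ▸ hw.2), mem_univ _⟩
      · rw [card_erase_of_mem h6]
        omega
      · intro w hw
        rw [mem_erase] at hw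
        rw [hW, mem_erase, mem_erase]
        exact ⟨fun hh => h2 (hh ▸ hw.2), hw.1, mem_univ _⟩
      · rw [card_erase_of_mem h7]
        omega
    · rintro ⟨A, B⟩ hq
      simp only [coe_product, Set.mem_prod, mem_coe, mem_filter, mem_powerset] at hq
      obtain ⟨⟨h1, h2⟩, ⟨h3, h4⟩⟩ := hq
      have hvA : v ∉ A := fun hh => by
        have := h1 hh
        rw [hW, mem_erase] at this
        exact this.1 rfl
      have huA : u ∉ A := fun hh => by
        have := h1 hh
        rw [hW, mem_erase, mem_erase] at this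
        exact this.2.1 rfl
      have hvB : v ∉ B := fun hh => by
        have := h3 hh
        rw [hW, mem_erase] at this
        exact this.1 rfl
      have huB : u ∉ B := fun hh => by
        have := h3 hh
        rw [hW, mem_erase, mem_erase] at this
        exact this.2.1 rfl
      rw [mem_coe, mem_filter, mem_cpf]
      simp only [mem_insert, true_or, and_true]
      refine ⟨⟨?_, ?_⟩, ?_, ?_⟩
      · rintro (hh | hh)
        · exact h hh
        · exact huA hh
      · rintro (hh | hh)
        · exact h hh.symm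
        · exact hvB hh
      · rw [card_insert_of_notMem hvA]
        omega
      · rw [card_insert_of_notMem huB]
        omega
    · rintro ⟨A, B⟩ hq
      obtain ⟨hq1, h6⟩ := mem_filter.mp (mem_coe.mp hq)
      obtain ⟨⟨h1, h2, h3⟩, h4, h5⟩ := mem_cpf.mp hq1
      simp only at h1 h2 h3 h4 h5 h6
      simp only [Prod.mk.injEq]
      exact ⟨insert_erase h6, insert_erase (h3.mp h6)⟩
    · rintro ⟨A, B⟩ hq
      simp only [coe_product, Set.mem_prod, mem_coe, mem_filter, mem_powerset] at hq
      obtain ⟨⟨h1, h2⟩, ⟨h3, h4⟩⟩ := hq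
      simp only [Prod.mk.injEq]
      constructor
      · apply erase_insert
        intro hh
        have := h1 hh
        rw [hW, mem_erase] at this
        exact this.1 rfl
      · apply erase_insert
        intro hh
        have := h3 hh
        rw [hW, mem_erase, mem_erase] at this
        exact this.2.1 rfl
  · congr 1
    ext ⟨A, B⟩
    rw [mem_filter, mem_cpf]
    simp only [mem_filter, mem_product, mem_powerset]
    constructor
    · rintro ⟨⟨⟨h1, h2, h3⟩, h4, h5⟩, h6⟩
      have h7 : u ∉ B := fun hh => h6 (h3.mpr hh)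
      refine ⟨⟨?_, h4⟩, ⟨?_, h5⟩⟩
      · intro w hw
        rw [hW, mem_erase, mem_erase]
        exact ⟨fun hh => h6 (hh ▸ hw), fun hh => h1 (hh ▸ hw), mem_univ _⟩
      · intro w hw
        rw [hW, mem_erase, mem_erase]
        exact ⟨fun hh => h2 (hh ▸ hw), fun hh => h7 (hh ▸ hw), mem_univ _⟩
    · rintro ⟨⟨h1, h2⟩, ⟨h3, h4⟩⟩
      have hvA : v ∉ A := fun hh => by
        have := h1 hh
        rw [hW, mem_erase] at this
        exact this.1 rfl
      have huA : u ∉ A := fun hh => by
        have := h1 hh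
        rw [hW, mem_erase, mem_erase] at this
        exact this.2.1 rfl
      have hvB : v ∉ B := fun hh => by
        have := h3 hh
        rw [hW, mem_erase] at this
        exact this.1 rfl
      have huB : u ∉ B := fun hh => by
        have := h3 hh
        rw [hW, mem_erase, mem_erase] at this
        exact this.2.1 rfl
      exact ⟨⟨⟨huA, hvB, by simp [hvA, huB]⟩, h2, h4⟩, hvA⟩

theorem tl_zero (N : ℕ) : tl N 0 = 2 ^ N := by
  rw [tl, ← Finset.range_eq_Ico, Nat.sum_range_choose]

theorem tl_succ (N s : ℕ) : tl N s = N.choose s + tl N (s + 1) := by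
  unfold tl
  by_cases h : s < N + 1
  · rw [Finset.sum_eq_sum_Ico_succ_bot h]
  · rw [Finset.Ico_eq_empty (by omega), Finset.Ico_eq_empty (by omega), Nat.choose_eq_zero_of_lt (by omega)]
    simp

end Pool.Agent.Helper32.AAG
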